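import Mathlib

/-! # Permutation characters modulo those of degree divisible by `m`: basics -/

namespace Pool.Agent.H73.DG

open MulAction

section basic

variable {G : Type} [Group G]

/-- permutation character of a `G`-set -/
noncomputable def pch (G : Type) [Group G] (X : Type) [MulAction G X] : G → ℤ :=
  fun g => (Nat.card (fixedBy X g) : ℤ)

/-- permutation character of `G` on the cosets of `H` -/
noncomputable def pc (H : Subgroup G) : G → ℤ := pch G (G ⧸ H)

theorem pch_one (X : Type) [MulAction G X] : pch G X 1 = Nat.card X := by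
  unfold pch
  have : fixedBy X (1 : G) = Set.univ := by
    ext x
    simp [mem_fixedBy]
  rw [this, Nat.card_coe_set_eq, Set.ncard_univ]

theorem pc_one (H : Subgroup G) : pc H 1 = H.index := by
  unfold pc
  rw [pch_one]
  rfl

theorem pch_congr {X Y : Type} [MulAction G X] [MulAction G Y] (e : X ≃ Y)
    (he : ∀ (g : G) (x : X), e (g • x) = g • e x) : pch G X = pch G Y := by
  funext g
  unfold pch
  congr 1
  refine Nat.card_congr (e.subtypeEquiv fun x => ?_)
  rw [mem_fixedBy, mem_fixedBy, ← he, e.apply_eq_iff_eq]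

/-- splitting along an invariant predicate -/
theorem pch_split {X : Type} [Finite X] [MulAction G X] {A B : Type} [MulAction G A]
    [MulAction G B] (f : A → X) (h : B → X) (hf : Function.Injective f)
    (hh : Function.Injective h) (hdis : ∀ a b, f a ≠ h b) (hcov : ∀ x, (∃ a, f a = x) ∨ ∃ b, h b = x)
    (hfe : ∀ (g : G) a, f (g • a) = g • f a) (hhe : ∀ (g : G) b, h (g • b) = g • h b) :
    pch G X = pch G A + pch G B := by
  haveI : Finite A := Finite.of_injective f hf
  haveI : Finite B := Finite.of_injective h hh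
  funext g
  simp only [pch, Pi.add_apply]
  rw [← Nat.cast_add, ← Nat.card_sum]
  congr 1
  refine (Nat.card_congr (Equiv.ofBijective (fun y : fixedBy A g ⊕ fixedBy B g =>
    (Sum.elim (fun a => ⟨f a.1, ?_⟩) (fun b => ⟨h b.1, ?_⟩) y : fixedBy X g)) ⟨?_, ?_⟩)).symm
  · rw [mem_fixedBy, ← hfe, a.2]
  · rw [mem_fixedBy, ← hhe, b.2]
  · rintro (⟨a, ha⟩ | ⟨b, hb⟩) (⟨a', ha'⟩ | ⟨b', hb'⟩) hab
    · simp only [Sum.elim_inl, Subtype.mk.injEq] at hab
      have := hf hab
      subst this
      rfl
    · simp only [Sum.elim_inl, Sum.elim_inr, Subtype.mk.injEq] at hab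
      exact absurd hab (hdis _ _)
    · simp only [Sum.elim_inl, Sum.elim_inr, Subtype.mk.injEq] at hab
      exact absurd hab.symm (hdis _ _)
    · simp only [Sum.elim_inr, Subtype.mk.injEq] at hab
      have := hh hab
      subst this
      rfl
  · rintro ⟨x, hx⟩
    rcases hcov x with ⟨a, rfl⟩ | ⟨b, rfl⟩
    · refine ⟨Sum.inl ⟨a, ?_⟩, rfl⟩
      rw [mem_fixedBy] at hx ⊢
      exact hf (by rw [hfe, hx])
    · refine ⟨Sum.inr ⟨b, ?_⟩, rfl⟩
      rw [mem_fixedBy] at hx ⊢
      exact hh (by rw [hhe, hx])

open Classical in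
theorem pc_normal (H : Subgroup G) [hn : H.Normal] (g : G) :
    pc H g = if g ∈ H then (H.index : ℤ) else 0 := by
  unfold pc pch
  split_ifs with h
  · have : fixedBy (G ⧸ H) g = Set.univ := by
      ext x
      induction x using QuotientGroup.induction_on with
      | H a =>
        simp only [mem_fixedBy, Set.mem_univ, iff_true]
        change ((g * a : G) : G ⧸ H) = a
        rw [QuotientGroup.eq]
        have := hn.conj_mem g⁻¹ (H.inv_mem h) a⁻¹
        simpa [mul_assoc] using this
    rw [this, Nat.card_coe_set_eq, Set.ncard_univ]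
    rfl
  · have : fixedBy (G ⧸ H) g = ∅ := by
      ext x
      induction x using QuotientGroup.induction_on with
      | H a =>
        simp only [mem_fixedBy, Set.mem_empty_iff_false, iff_false]
        intro hx
        change ((g * a : G) : G ⧸ H) = a at hx
        rw [QuotientGroup.eq] at hx
        apply h
        have := hn.conj_mem _ hx a
        have h2 : a * ((g * a)⁻¹ * a) * a⁻¹ = g⁻¹ := by group
        rw [h2] at this
        simpa using H.inv_mem this
    rw [this]
    simp

theorem pc_top : pc (⊤ : Subgroup G) = 1 := by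
  funext g
  rw [pc_normal]
  simp

theorem pc_conj (H : Subgroup G) (a : G) : pc (H.map (MulAut.conj a).toMonoidHom) = pc H := by
  symm
  unfold pc
  set H' := H.map (MulAut.conj a).toMonoidHom with hH'
  -- x H ↦ x a⁻¹ H'
  have key : ∀ x y : G, (x * a⁻¹)⁻¹ * (y * a⁻¹) ∈ H' ↔ x⁻¹ * y ∈ H := by
    intro x y
    rw [hH', Subgroup.mem_map]
    constructor
    · rintro ⟨h, hh, hxy⟩
      have : h = x⁻¹ * y := by
        have h1 : a * h * a⁻¹ = (x * a⁻¹)⁻¹ * (y * a⁻¹) := by simpa using hxy
        have h2 : h = a⁻¹ * (a * h * a⁻¹) * a := by group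
        rw [h2, h1]
        group
      rw [← this]
      exact hh
    · intro h
      refine ⟨_, h, ?_⟩
      simp [mul_assoc]
  refine pch_congr (Equiv.ofBijective (Quotient.map' (fun x => x * a⁻¹) ?_) ⟨?_, ?_⟩) ?_
  · intro x y h
    rw [QuotientGroup.leftRel_apply] at h ⊢
    exact (key x y).2 h
  · intro x y
    induction x using QuotientGroup.induction_on with
    | H x =>
      induction y using QuotientGroup.induction_on with
      | H y =>
        intro h
        have h' : ((x * a⁻¹ : G) : G ⧸ H') = ((y * a⁻¹ : G) : G ⧸ H') := h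
        rw [QuotientGroup.eq] at h' ⊢
        exact (key x y).1 h'
  · intro y
    induction y using QuotientGroup.induction_on with
    | H y =>
      refine ⟨((y * a : G) : G ⧸ H), ?_⟩
      change (((y * a) * a⁻¹ : G) : G ⧸ H') = _
      simp
  · intro g x
    induction x using QuotientGroup.induction_on with
    | H x =>
      change (((g * x) * a⁻¹ : G) : G ⧸ H') = ((g * (x * a⁻¹) : G) : G ⧸ H')
      rw [mul_assoc]

/-- decomposition into orbits -/
theorem pch_eq_sum (X : Type) [MulAction G X] [Finite X] [Fintype (orbitRel.Quotient G X)] :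
    pch G X = ∑ ω : orbitRel.Quotient G X, pc (stabilizer G ω.out) := by
  funext g
  rw [Finset.sum_apply]
  unfold pc pch
  let f : fixedBy X g → orbitRel.Quotient G X := fun x => Quotient.mk'' x.1
  rw [Nat.card_congr (Equiv.sigmaFiberEquiv f).symm]
  rw [Nat.card_sigma]
  push_cast
  refine Finset.sum_congr rfl fun ω _ => ?_
  congr 1
  have hout : (Quotient.mk'' ω.out : orbitRel.Quotient G X) = ω := Quotient.out_eq' ω
  have hsm : ∀ q : G ⧸ stabilizer G ω.out,
      ((orbitEquivQuotientStabilizer G ω.out).symm (g • q) : X) =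
        g • ((orbitEquivQuotientStabilizer G ω.out).symm q : X) := by
    intro q
    induction q using QuotientGroup.induction_on with
    | H a =>
      have h1 : g • ((a : G) : G ⧸ stabilizer G ω.out) = ((g * a : G) : G ⧸ stabilizer G ω.out) :=
        rfl
      rw [h1, orbitEquivQuotientStabilizer_symm_apply, orbitEquivQuotientStabilizer_symm_apply,
        mul_smul]
  refine (Nat.card_congr (Equiv.ofBijective (fun q : fixedBy (G ⧸ stabilizer G ω.out) g =>
    (⟨⟨((orbitEquivQuotientStabilizer G ω.out).symm q.1 : X), ?_⟩, ?_⟩ :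
      {y : fixedBy X g // f y = ω})) ⟨?_, ?_⟩)).symm
  · rw [mem_fixedBy, ← hsm, q.2]
  · change (Quotient.mk'' _ : orbitRel.Quotient G X) = ω
    refine Eq.trans ?_ hout
    rw [Quotient.eq'']
    exact ((orbitEquivQuotientStabilizer G ω.out).symm q.1).2
  · intro q q' h
    simp only [Subtype.mk.injEq] at h
    have := (orbitEquivQuotientStabilizer G ω.out).symm.injective (Subtype.ext h)
    exact Subtype.ext this
  · rintro ⟨⟨y, hy⟩, hyω⟩
    have hmem : y ∈ orbit G ω.out := by
      have h1 : (Quotient.mk'' y : orbitRel.Quotient G X) = Quotient.mk'' ω.out := by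
        rw [hout]; exact hyω
      rw [Quotient.eq''] at h1
      exact h1
    refine ⟨⟨orbitEquivQuotientStabilizer G ω.out ⟨y, hmem⟩, ?_⟩, ?_⟩
    · rw [mem_fixedBy]
      apply (orbitEquivQuotientStabilizer G ω.out).symm.injective
      apply Subtype.ext
      rw [hsm, Equiv.symm_apply_apply]
      exact hy
    · simp

theorem card_eq_sum (X : Type) [MulAction G X] [Finite X] [Fintype (orbitRel.Quotient G X)] :
    (Nat.card X : ℤ) = ∑ ω : orbitRel.Quotient G X, ((stabilizer G ω.out).index : ℤ) := by
  have h := congrFun (pch_eq_sum (G := G) X) 1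
  rw [pch_one, Finset.sum_apply] at h
  rw [h]
  exact Finset.sum_congr rfl fun ω _ => pc_one _

/-- general membership via orbits -/
theorem mem_of_orbits (X : Type) [MulAction G X] [Finite X] (Q : AddSubgroup (G → ℤ))
    (ξ : G → ℤ) (h : ∀ x : X, pc (stabilizer G x) - ((stabilizer G x).index : ℤ) • ξ ∈ Q) :
    pch G X - (Nat.card X : ℤ) • ξ ∈ Q := by
  classical
  haveI : Fintype (orbitRel.Quotient G X) := Fintype.ofFinite _
  rw [pch_eq_sum, card_eq_sum (G := G) X, Finset.sum_smul, ← Finset.sum_sub_distrib]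
  exact AddSubgroup.sum_mem _ fun ω _ => h _

theorem mem_of_orbits' (X : Type) [MulAction G X] [Finite X] (Q : AddSubgroup (G → ℤ))
    (h : ∀ x : X, pc (stabilizer G x) ∈ Q) : pch G X ∈ Q := by
  classical
  haveI : Fintype (orbitRel.Quotient G X) := Fintype.ofFinite _
  rw [pch_eq_sum]
  exact AddSubgroup.sum_mem _ fun ω _ => h _

/-- the same, one exceptional fixed point -/
theorem mem_of_orbits_fix (X : Type) [MulAction G X] [Finite X] (Q : AddSubgroup (G → ℤ))
    (ξ : G → ℤ) (x0 : X) (hx0 : ∀ g : G, g • x0 = x0)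
    (h : ∀ x : X, x ≠ x0 → pc (stabilizer G x) - ((stabilizer G x).index : ℤ) • ξ ∈ Q) :
    (pch G X - (Nat.card X : ℤ) • ξ) - (1 - ξ) ∈ Q := by
  classical
  haveI : Fintype (orbitRel.Quotient G X) := Fintype.ofFinite _
  rw [pch_eq_sum, card_eq_sum (G := G) X, Finset.sum_smul, ← Finset.sum_sub_distrib]
  set ω0 : orbitRel.Quotient G X := Quotient.mk'' x0 with hω0
  have hout : ω0.out = x0 := by
    have h1 : (Quotient.mk'' ω0.out : orbitRel.Quotient G X) = Quotient.mk'' x0 :=
      Quotient.out_eq' ω0
    rw [Quotient.eq''] at h1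
    obtain ⟨g, hg⟩ := h1
    have hg' : g • x0 = ω0.out := hg
    rw [← hg', hx0]
  have hst : stabilizer G x0 = ⊤ := by
    ext g
    simp [mem_stabilizer_iff, hx0]
  rw [← Finset.add_sum_erase Finset.univ _ (Finset.mem_univ ω0), hout, hst, pc_top,
    Subgroup.index_top, Nat.cast_one, one_smul, add_sub_cancel_left]
  refine AddSubgroup.sum_mem _ fun ω hω => h _ ?_
  intro h1
  apply (Finset.mem_erase.1 hω).1
  have h2 : (Quotient.mk'' ω.out : orbitRel.Quotient G X) = ω := Quotient.out_eq' ω
  rw [← h2, h1]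

end basic

section top

variable (G : Type) [Group G] [TopologicalSpace G]

/-- combinations of the permutation characters of degree divisible by `m` -/
def P (m : ℕ) : AddSubgroup (G → ℤ) :=
  AddSubgroup.closure {f | ∃ H : Subgroup G, IsOpen (H : Set G) ∧ m ∣ H.index ∧ f = pc H}

variable {G}

theorem pc_mem_P {m : ℕ} {H : Subgroup G} (hH : IsOpen (H : Set G)) (hm : m ∣ H.index) :
    pc H ∈ P G m := AddSubgroup.subset_closure ⟨H, hH, hm, rfl⟩

theorem P_mono {m m' : ℕ} (h : m ∣ m') : P G m' ≤ P G m := by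
  unfold P
  rw [AddSubgroup.closure_le]
  rintro f ⟨H, hH, hm, rfl⟩
  exact pc_mem_P hH (h.trans hm)

theorem pch_mem_P {m : ℕ} (X : Type) [MulAction G X] [Finite X]
    (h : ∀ x : X, IsOpen (stabilizer G x : Set G) ∧ m ∣ (stabilizer G x).index) :
    pch G X ∈ P G m :=
  mem_of_orbits' X _ fun x => pc_mem_P (h x).1 (h x).2

end top

end Pool.Agent.H73.DG
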