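import Pool.Agent.H73.DG.CStep

/-! # `pc S ≡ [G : S]` modulo `P p` for Sylow subgroups and for all subgroups of index prime
to `p` -/

namespace Pool.Agent.H73.DG

open MulAction

variable {p : ℕ} [Fact p.Prime]

theorem inv_mod {a : ℕ} (ha : ¬ p ∣ a) : ∃ c k : ℤ, c * a = 1 + k * p := by
  have h : Nat.Coprime a p := ((Nat.Prime.coprime_iff_not_dvd Fact.out).2 ha).symm
  have h1 := Nat.gcd_eq_gcd_ab a p
  rw [Nat.Coprime] at h
  rw [h] at h1
  refine ⟨Nat.gcdA a p, - Nat.gcdB a p, ?_⟩
  push_cast at h1
  linarith

theorem p_smul_mem {G : Type} [Group G] [TopologicalSpace G] [IsTopologicalGroup G]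
    (hG : Nice G) {J : Subgroup G} (hJ : IsOpen (J : Set G)) : (p : ℤ) • pc J ∈ P G p :=
  P_mono (Dvd.intro _ rfl) (smul_pc_mem hG hJ p)

/-- Sylow subgroups -/
theorem sylow_mem (n : ℕ) : ∀ (G : Type) [Group G] [TopologicalSpace G] [IsTopologicalGroup G],
    Nice G → ∀ N S : Subgroup G, N.Normal → IsOpen (N : Set G) → PQ p N S → ¬ p ∣ S.index →
    N.index ≤ n → pc S - (S.index : ℤ) • (1 : G → ℤ) ∈ P G p := by
  classical
  induction n with
  | zero =>
    intro G _ _ _ hG N S hNn hN hS hSp hn
    have := hG.finiteIndex hN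
    exact absurd (Nat.le_zero.1 hn) this.index_ne_zero
  | succ n ih =>
    intro G _ _ _ hG N S hNn hN hS hSp hn
    have := hNn
    have hNf := hG.finiteIndex hN
    have hSo : IsOpen (S : Set G) := Subgroup.isOpen_mono hS.1 hN
    by_cases hStop : S = ⊤
    · subst hStop
      rw [pc_top, Subgroup.index_top, Nat.cast_one, one_smul, sub_self]
      exact AddSubgroup.zero_mem _
    haveI := hG.fin hSo
    haveI : Fintype (G ⧸ S) := Fintype.ofFinite _
    -- the cocycle
    obtain ⟨N', θ, e1, e2, e3, e4, e5, e6⟩ := hG.emb p Fact.out N hN hNn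
    haveI := e1
    haveI := hG.fin e2
    haveI : Fintype (G ⧸ N') := Fintype.ofFinite _
    obtain ⟨D0, hD0⟩ := exists_cdata hG e2 e4 e5 e6
    have hN'S : N' ≤ S := e3.trans hS.1
    haveI : Finite (SZ p S) := inferInstance
    obtain ⟨D, hρ, hgood, -, -⟩ := hD0 (SZ p S) (szRep S) (pull hN'S) (pull_inj hN'S)
      (fun g m x => pull_equi hN'S g m x)
    -- `p` divides the cardinality of `M`
    have hcard : p ∣ Nat.card (SZ p S) := by
      obtain ⟨f, hf⟩ := sz_ne (p := p) hStop
      haveI : Nontrivial (SZ p S) := ⟨⟨f, 0, hf⟩⟩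
      haveI : Module.Finite (ZMod p) (SZ p S) := Module.Finite.of_finite
      rw [Module.natCard_eq_pow_finrank (K := ZMod p), Nat.card_zmod]
      exact dvd_pow_self _ (Module.finrank_pos).ne'
    -- `pch M` is in `P p`
    have hM : pch G (MSet D) ∈ P G p := by
      have h1 := relation D
      have h2 : pch G (TSet D) ∈ P G p :=
        pch_mem_P _ fun x => ⟨(T_stab hgood x).1, by rw [(T_stab hgood x).2]; exact hcard⟩
      have h3 := W_mem D (P G p) (fun x hx => pc_mem_P (W_stab hgood x hx).1 (by
        rw [(W_stab hgood x hx).2]; exact Dvd.intro_left _ rfl))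
      have h4 : (p : ℤ) • (1 : G → ℤ) ∈ P G p := smul_one_mem hG p
      have h5 : pch G (MSet D) = (pch G (WSet D) - (p : ℤ) • (1 : G → ℤ)) +
          (p : ℤ) • (1 : G → ℤ) - ((p : ℤ) - 1) • pch G (TSet D) := by
        rw [h1]; abel
      rw [h5]
      exact AddSubgroup.sub_mem _ (AddSubgroup.add_mem _ h3 h4) (AddSubgroup.zsmul_mem _ h2 _)
    obtain ⟨c, k, hck⟩ := inv_mod (p := p) hSp
    have hpS : (p : ℤ) • pc S ∈ P G p := p_smul_mem hG hSo
    -- orbits
    have key : ∀ x : MSet D, x ≠ ⟨0⟩ →
        pc (stabilizer G x) - ((stabilizer G x).index : ℤ) • (c • pc S) ∈ P G p := by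
      intro x hx
      set T := stabilizer G x with hT
      have hTo : IsOpen (T : Set G) := M_open hgood x
      have hNT : N ≤ T := by
        intro u hu
        rw [hT, mem_stabilizer_iff, MSet.smul_def, hρ]
        apply MSet.ext
        change szRep S u x.m = x.m
        apply Subtype.ext
        funext y
        rw [szRep_apply]
        induction y using QuotientGroup.induction_on with
        | H a =>
          have h3 : u⁻¹ • (a : G ⧸ S) = (a : G ⧸ S) := by
            change ((u⁻¹ * a : G) : G ⧸ S) = _
            rw [QuotientGroup.eq]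
            apply hS.1
            have := hNn.conj_mem u hu a⁻¹
            simpa [mul_assoc] using this
          rw [h3]
      by_cases hpT : p ∣ T.index
      · refine AddSubgroup.sub_mem _ (pc_mem_P hTo hpT) ?_
        obtain ⟨r, hr⟩ := hpT
        have : (T.index : ℤ) • (c • pc S) = (r * c : ℤ) • ((p : ℤ) • pc S) := by
          rw [smul_smul, smul_smul, hr]
          push_cast
          congr 1
          ring
        rw [this]
        exact AddSubgroup.zsmul_mem _ hpS _
      · have hTtop : T ≠ ⊤ := by
          intro h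
          apply hx
          apply MSet.ext
          refine sz_fixed hSp x.m fun g => ?_
          have : g ∈ T := by rw [h]; trivial
          rw [hT, mem_stabilizer_iff, MSet.smul_def, hρ] at this
          exact congrArg MSet.m this
        obtain ⟨g, hg⟩ := syl_conj N S T hS hNT hpT
        set S' := S.map (MulAut.conj g).toMonoidHom with hS'
        have hcong : N.map (MulAut.conj g).toMonoidHom = N := by
          ext y
          rw [Subgroup.mem_map]
          constructor
          · rintro ⟨z, hz, rfl⟩
            exact hNn.conj_mem z hz g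
          · intro hy
            refine ⟨g⁻¹ * y * g⁻¹⁻¹, hNn.conj_mem y hy g⁻¹, ?_⟩
            simp [mul_assoc]
        have hNS' : N ≤ S' := by
          rw [hS', ← hcong]
          exact Subgroup.map_mono hS.1
        have hS'o : IsOpen (S' : Set G) := Subgroup.isOpen_mono hNS' hN
        have hind : S'.index = S.index := by
          rw [hS', Subgroup.index_map_of_bijective]
          exact (MulAut.conj g).bijective
        have hrel : N.relIndex S' = N.relIndex S := by
          have h1 := Subgroup.relIndex_mul_index hS.1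
          have h2 := Subgroup.relIndex_mul_index hNS'
          rw [hind, ← h1] at h2
          have h3 : S.index ≠ 0 := (hG.finiteIndex hSo).index_ne_zero
          exact Nat.eq_of_mul_eq_mul_right (Nat.pos_of_ne_zero h3) h2
        haveI := hG.sub hTo
        have h1 := ih T (hG.sub hTo) (N.subgroupOf T) (S'.subgroupOf T) (hNn.subgroupOf T)
          (open_comap hN T) ⟨fun y hy => hNS' hy, by
            obtain ⟨k', hk'⟩ := hS.2
            refine ⟨k', ?_⟩
            rw [Subgroup.relIndex_subgroupOf hg, hrel, hk']⟩ (by
            intro h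
            apply hSp
            rw [← hind, ← Subgroup.relIndex_mul_index hg]
            exact Dvd.dvd.mul_right h _) (by
            have h2 := Subgroup.relIndex_mul_index hNT
            have h3 : 1 < T.index := by
              rcases Nat.lt_or_ge 1 T.index with h | h
              · exact h
              · exfalso
                have h4 : T.index ≠ 0 := (hG.finiteIndex hTo).index_ne_zero
                exact hTtop (Subgroup.index_eq_one.1 (by omega))
            have h4 : 0 < N.relIndex T := by
              rcases Nat.eq_zero_or_pos (N.relIndex T) with h | h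
              · rw [h, zero_mul] at h2
                exact absurd h2.symm hNf.index_ne_zero
              · exact h
            change N.relIndex T ≤ n
            have : N.relIndex T < N.index := by
              rw [← h2]
              exact lt_mul_of_one_lt_right h4 h3
            omega)
        have h2 := hG.ind_step hTo hS'o hg h1
        have h3 := P_mono (G := G) (Dvd.intro _ rfl : p ∣ p * T.index) h2
        rw [hS', pc_conj, ← hS'] at h3
        change pc S - ((S'.relIndex T : ℕ) : ℤ) • pc T ∈ P G p at h3
        set r : ℕ := S'.relIndex T with hr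
        have hrT : r * T.index = S.index := by
          rw [hr, Subgroup.relIndex_mul_index hg, hind]
        have hrT' : (r : ℤ) * T.index = S.index := by exact_mod_cast hrT
        have hpT' : (p : ℤ) • pc T ∈ P G p := p_smul_mem hG hTo
        have h4 : pc T - (T.index : ℤ) • (c • pc S) =
            - ((T.index * c : ℤ) • (pc S - (r : ℤ) • pc T)) - k • ((p : ℤ) • pc T) := by
          have h5 : (c * S.index : ℤ) = 1 + k * p := hck
          rw [smul_sub, smul_smul, smul_smul, smul_smul]
          have h6 : (T.index : ℤ) * c * r = 1 + k * p := by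
            rw [← h5, ← hrT']; ring
          rw [h6, add_smul, one_smul]
          abel
        rw [h4]
        exact AddSubgroup.sub_mem _ (AddSubgroup.neg_mem _ (AddSubgroup.zsmul_mem _ h3 _))
          (AddSubgroup.zsmul_mem _ hpT' _)
    have h6 := mem_of_orbits_fix (G := G) (MSet D) (P G p) (c • pc S) ⟨0⟩ (by
      intro g
      rw [MSet.smul_def]
      apply MSet.ext
      exact map_zero _) key
    have h7 : (1 : G → ℤ) - c • pc S ∈ P G p := by
      obtain ⟨r, hr⟩ := hcard
      have h8 : (1 : G → ℤ) - c • pc S = pch G (MSet D) - (r * c : ℤ) • ((p : ℤ) • pc S) -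
          ((pch G (MSet D) - (Nat.card (MSet D) : ℤ) • (c • pc S)) - (1 - c • pc S)) := by
        rw [MSet.card, hr, smul_smul, smul_smul]
        have : ((r : ℤ) * c * p) = ((p * r : ℕ) : ℤ) * c := by push_cast; ring
        rw [this]
        abel
      rw [h8]
      exact AddSubgroup.sub_mem _ (AddSubgroup.sub_mem _ hM (AddSubgroup.zsmul_mem _ hpS _)) h6
    have h9 : pc S - (S.index : ℤ) • (1 : G → ℤ) =
        - ((S.index : ℤ) • ((1 : G → ℤ) - c • pc S)) - k • ((p : ℤ) • pc S) := by
      rw [smul_sub, smul_smul, smul_smul]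
      have : (S.index : ℤ) * c = 1 + k * p := by rw [mul_comm]; exact hck
      rw [this, add_smul, one_smul]
      abel
    rw [h9]
    exact AddSubgroup.sub_mem _ (AddSubgroup.neg_mem _ (AddSubgroup.zsmul_mem _ h7 _))
      (AddSubgroup.zsmul_mem _ hpS _)

/-- subgroups of index prime to `p` -/
theorem prime_to_mem {G : Type} [Group G] [TopologicalSpace G] [IsTopologicalGroup G]
    (hG : Nice G) {J : Subgroup G} (hJ : IsOpen (J : Set G)) (hp : ¬ p ∣ J.index) :
    pc J - (J.index : ℤ) • (1 : G → ℤ) ∈ P G p := by
  set N := J.normalCore with hN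
  have hNo : IsOpen (N : Set G) := hG.core hJ
  haveI hNn : N.Normal := Subgroup.normalCore_normal J
  haveI := hG.finiteIndex hNo
  have hNJ : N ≤ J := Subgroup.normalCore_le J
  obtain ⟨S, hS, hSJ, hSp⟩ := exists_syl p N J hNJ
  have hSo : IsOpen (S : Set G) := Subgroup.isOpen_mono hS.1 hNo
  have hpr : p.Prime := Fact.out
  have h1 := sylow_mem (p := p) N.index G hG N S hNn hNo hS (by
    rw [← Subgroup.relIndex_mul_index hSJ]
    intro h
    rcases hpr.dvd_mul.1 h with h | h
    · exact hSp h
    · exact hp h) le_rfl
  have h2 := sylow_mem (p := p) (N.subgroupOf J).index J (hG.sub hJ) (N.subgroupOf J)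
    (S.subgroupOf J) (hNn.subgroupOf J) (open_comap hNo J) ⟨fun y hy => hS.1 hy, by
      obtain ⟨k', hk'⟩ := hS.2
      exact ⟨k', by rw [Subgroup.relIndex_subgroupOf hSJ, hk']⟩⟩ hSp le_rfl
  have h3 := P_mono (G := G) (Dvd.intro _ rfl : p ∣ p * J.index) (hG.ind_step hJ hSo hSJ h2)
  change pc S - ((S.relIndex J : ℕ) : ℤ) • pc J ∈ P G p at h3
  set r := S.relIndex J with hr
  have h4 : (r : ℤ) • (pc J - (J.index : ℤ) • (1 : G → ℤ)) ∈ P G p := by
    have : (r : ℤ) • (pc J - (J.index : ℤ) • (1 : G → ℤ)) =
        (pc S - (S.index : ℤ) • (1 : G → ℤ)) - (pc S - (r : ℤ) • pc J) := by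
      rw [smul_sub, smul_smul, hr, ← Nat.cast_mul, Subgroup.relIndex_mul_index hSJ]
      abel
    rw [this]
    exact AddSubgroup.sub_mem _ h1 h3
  have h5 : (p : ℤ) • (pc J - (J.index : ℤ) • (1 : G → ℤ)) ∈ P G p := by
    rw [smul_sub, smul_comm]
    exact AddSubgroup.sub_mem _ (p_smul_mem hG hJ)
      (AddSubgroup.zsmul_mem _ (smul_one_mem hG p) _)
  exact mem_of_coprime ((Nat.Prime.coprime_iff_not_dvd hpr).2 hSp).symm h4 h5

end Pool.Agent.H73.DG
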