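import Pool.Agent.H73.DG.Basic

/-! # Splitting off an invariant part of a `G`-set

PLAN. `B : SubMulAction G X` with carrier `{x | ¬ F x}` (invariant: if `F (g • x)` then
`F (g⁻¹ • g • x) = F x`). `mem_of_orbits'` for `X := B`:
`stabilizer G (b : B) = stabilizer G (b : X)` (by `ext`, `Subtype.ext_iff`), so `pch G B ∈ Q`. And
`pch G X g = card {x // F x ∧ g • x = x} + pch G B g` (split the fixed points into those with
`F` and those without). -/

namespace Pool.Agent.H73.DG

open MulAction

variable {G : Type} [Group G]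

/-- the part without `F`, a `G`-set again -/
private def dgSplitB {X : Type} [MulAction G X] (F : X → Prop)
    (hF : ∀ (g : G) x, F x → F (g • x)) : SubMulAction G X where
  carrier := {x | ¬ F x}
  smul_mem' := by
    intro g x hx h
    apply hx
    have := hF g⁻¹ _ h
    rwa [inv_smul_smul] at this

theorem pch_split_pred (X : Type) [MulAction G X] [Finite X] (F : X → Prop)
    (hF : ∀ (g : G) x, F x → F (g • x)) (Q : AddSubgroup (G → ℤ))
    (h : ∀ x, ¬ F x → pc (stabilizer G x) ∈ Q) :
    pch G X - (fun g => (Nat.card {x : X // F x ∧ g • x = x} : ℤ)) ∈ Q := by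
  classical
  set B : SubMulAction G X := dgSplitB F hF with hB
  have hmemB : ∀ x : X, x ∈ B ↔ ¬ F x := fun x => Iff.rfl
  have hQ : pch G B ∈ Q := by
    refine mem_of_orbits' B Q fun b => ?_
    have hst : stabilizer G b = stabilizer G (b : X) := by
      ext g
      rw [mem_stabilizer_iff, mem_stabilizer_iff, Subtype.ext_iff]
      rfl
    rw [hst]
    exact h _ b.2
  have key : pch G X - (fun g => (Nat.card {x : X // F x ∧ g • x = x} : ℤ)) = pch G B := by
    funext g
    simp only [pch, Pi.sub_apply]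
    rw [sub_eq_iff_eq_add, ← Nat.cast_add, ← Nat.card_sum]
    congr 1
    refine (Nat.card_congr (Equiv.ofBijective
      (fun y : fixedBy B g ⊕ {x : X // F x ∧ g • x = x} =>
        (Sum.elim (fun a => ⟨(a.1 : X), ?_⟩) (fun b => ⟨b.1, ?_⟩) y : fixedBy X g))
        ⟨?_, ?_⟩)).symm
    · rw [mem_fixedBy]
      exact congrArg Subtype.val a.2
    · exact b.2.2
    · rintro (⟨a, ha⟩ | ⟨b, hb⟩) (⟨a', ha'⟩ | ⟨b', hb'⟩) hab
      · have h1 := congrArg Subtype.val hab
        have h2 : a = a' := Subtype.ext h1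
        subst h2
        rfl
      · have h2 : (a : X) = b' := congrArg Subtype.val hab
        exact absurd (h2 ▸ hb'.1) ((hmemB _).1 a.2)
      · have h2 : b = (a' : X) := congrArg Subtype.val hab
        exact absurd (h2 ▸ hb.1) ((hmemB _).1 a'.2)
      · have h2 : b = b' := congrArg Subtype.val hab
        subst h2
        rfl
    · rintro ⟨x, hx⟩
      by_cases hFx : F x
      · exact ⟨Sum.inr ⟨x, hFx, hx⟩, rfl⟩
      · exact ⟨Sum.inl ⟨⟨x, (hmemB x).2 hFx⟩, Subtype.ext hx⟩, rfl⟩
  rw [key]
  exact hQ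

end Pool.Agent.H73.DG
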