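import Pool.Agent.H73.DG.Cdata

/-! # Characters of order `p` and multiples of permutation characters

PLAN. `ker_index`: the image is `⊤` (a nonzero element of `ZMod p` generates), so
`Nat.card (G ⧸ ker) = p` (`Subgroup.index_ker`, `Nat.card_zmod`).
`exists_char`: apply `hG.emb p _ N.normalCore` (`Nice.core`, `Subgroup.normalCore_le`) to get `N'`,
`θ`; `exists_cdata` with `M = ZMod p`, `ρ = 1` (the trivial representation
`Representation.trivial`), `j m = fun _ => m`; `ν g = ofAdd (D.z g 1)`: a homomorphism by the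
cocycle condition; open kernel because it contains the open subgroup of `D.Good.op`
(`Subgroup.isOpen_mono`); take `f = LinearMap.id` in the last property to get `n ∈ N' ≤ N`.
`relA`: all subgroups are normal, so use `pc_normal` and the indices `p`, `p`, `p ^ 2`
(`ker_index`, `inf_index`); evaluate at `g`, with `a = λ1 g`, `b = λ2 g`:
`p + p²[a = b = 0] = p [a = 0] + p #{c | b + c a = 0}`.
(each character `λ2 * λ1 ^ c.val` is nontrivial: evaluate at `n`).
`inf_index`: `g ↦ (λ1 g, λ2 g)` is onto `Multiplicative (ZMod p) × Multiplicative (ZMod p)`, its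
kernel is the intersection.
`smul_one_mem`: strong induction on `m`, for all Nice groups at once (the type `G` is
universally quantified in the induction). `m = 0`: the function is `0`. `m = 1`: `pc_top`. Otherwise
`m = p * k`, `p` prime (`Nat.minFac`), choose `λ1` by `exists_char` with `N = ⊤` and `λ2` with
`N = λ1.ker`; by `relA`, `m • 1 = k • (pc λ1.ker + ∑ c, pc .. - pc (λ1.ker ⊓ λ2.ker))`, and for each
of these open subgroups `J`, `k • pc J = ind J (k • 1) ∈ P G (k * J.index)` by `Nice.ind_mem`,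
`ind_one` and the induction hypothesis for `J` (`Nice.sub`), and `m ∣ k * J.index`
(`P_mono`). `smul_pc_mem`: `Nice.ind_mem` again. -/

namespace Pool.Agent.H73.DG

variable {p : ℕ} [Fact p.Prime] {G : Type} [Group G]

omit [Fact p.Prime] in
private theorem card_mul_zmod : Nat.card (Multiplicative (ZMod p)) = p := by
  rw [Nat.card_congr (Multiplicative.toAdd (α := ZMod p)), Nat.card_zmod]

theorem ker_index (ν : G →* Multiplicative (ZMod p)) (h : ∃ g, ν g ≠ 1) : ν.ker.index = p := by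
  rw [Subgroup.index_ker]
  have h1 : Nat.card ν.range ∣ p := by
    have := Subgroup.card_subgroup_dvd_card ν.range
    rwa [card_mul_zmod] at this
  rcases (Nat.dvd_prime Fact.out).1 h1 with h2 | h2
  · exfalso
    obtain ⟨g, hg⟩ := h
    have h4 := Subgroup.card_eq_one.1 h2
    have h3 : ν g ∈ ν.range := ⟨g, rfl⟩
    rw [h4] at h3
    exact hg (Subgroup.mem_bot.1 h3)
  · exact h2

theorem inf_index (l1 l2 : G →* Multiplicative (ZMod p)) (h1 : ∃ g, l1 g ≠ 1)
    (h2 : ∃ n ∈ l1.ker, l2 n ≠ 1) : (l1.ker ⊓ l2.ker).index = p ^ 2 := by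
  have e1 := Subgroup.relIndex_mul_index (inf_le_left : l1.ker ⊓ l2.ker ≤ l1.ker)
  rw [Subgroup.inf_relIndex_left] at e1
  have e2 : l2.ker.relIndex l1.ker = p := by
    have e3 : l2.ker.subgroupOf l1.ker = (l2.comp l1.ker.subtype).ker := by
      ext x
      rw [Subgroup.mem_subgroupOf, MonoidHom.mem_ker, MonoidHom.mem_ker]
      rfl
    rw [Subgroup.relIndex, e3]
    obtain ⟨n, hn, hn2⟩ := h2
    exact ker_index _ ⟨⟨n, hn⟩, hn2⟩
  rw [← e1, e2, ker_index l1 h1, pow_two]

theorem relA (l1 l2 : G →* Multiplicative (ZMod p)) (h1 : ∃ g, l1 g ≠ 1)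
    (h2 : ∃ n ∈ l1.ker, l2 n ≠ 1) :
    (p : ℤ) • (1 : G → ℤ) + pc (l1.ker ⊓ l2.ker) =
      pc l1.ker + ∑ c : ZMod p, pc ((l2 * l1 ^ c.val).ker) := by
  classical
  have hNe : NeZero p := ⟨(Fact.out : p.Prime).ne_zero⟩
  have hc : ∀ c : ZMod p, ((l2 * l1 ^ c.val).ker).index = p := by
    intro c
    obtain ⟨n, hn, hn2⟩ := h2
    refine ker_index _ ⟨n, ?_⟩
    rw [MonoidHom.mul_apply, MonoidHom.pow_apply, MonoidHom.mem_ker.1 hn, one_pow, mul_one]
    exact hn2
  have hmem : ∀ (g : G) (c : ZMod p), g ∈ (l2 * l1 ^ c.val).ker ↔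
      Multiplicative.toAdd (l2 g) + c * Multiplicative.toAdd (l1 g) = 0 := by
    intro g c
    rw [MonoidHom.mem_ker, MonoidHom.mul_apply, MonoidHom.pow_apply,
      ← (Multiplicative.toAdd (α := ZMod p)).apply_eq_iff_eq, toAdd_mul, toAdd_pow, toAdd_one,
      nsmul_eq_mul, ZMod.natCast_zmod_val]
  have hmem1 : ∀ g : G, g ∈ l1.ker ↔ Multiplicative.toAdd (l1 g) = 0 := by
    intro g
    rw [MonoidHom.mem_ker, ← (Multiplicative.toAdd (α := ZMod p)).apply_eq_iff_eq, toAdd_one]
  have hmem2 : ∀ g : G, g ∈ l2.ker ↔ Multiplicative.toAdd (l2 g) = 0 := by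
    intro g
    rw [MonoidHom.mem_ker, ← (Multiplicative.toAdd (α := ZMod p)).apply_eq_iff_eq, toAdd_one]
  funext g
  obtain ⟨a, ha⟩ : ∃ a : ZMod p, a = Multiplicative.toAdd (l1 g) := ⟨_, rfl⟩
  obtain ⟨b, hb⟩ : ∃ b : ZMod p, b = Multiplicative.toAdd (l2 g) := ⟨_, rfl⟩
  rw [Pi.add_apply, Pi.add_apply, Finset.sum_apply, Pi.smul_apply, Pi.one_apply, pc_normal,
    pc_normal, inf_index l1 l2 h1 h2, ker_index l1 h1]
  have e1 : ∀ c : ZMod p, pc ((l2 * l1 ^ c.val).ker) g = if b + c * a = 0 then (p : ℤ) else 0 := by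
    intro c
    rw [pc_normal, hc]
    simp only [hmem, ← ha, ← hb]
  simp only [e1, Subgroup.mem_inf, hmem1, hmem2, ← ha, ← hb]
  by_cases h0 : a = 0
  · subst h0
    simp only [true_and, mul_zero, add_zero, if_true, Finset.sum_const, Finset.card_univ,
      ZMod.card, smul_eq_mul, mul_one]
    split_ifs
    · rw [nsmul_eq_mul]
      push_cast
      ring
    · simp
  · rw [Finset.sum_eq_single (-(b * a⁻¹))]
    · simp [h0]
    · intro c _ hcne
      rw [if_neg]
      intro h
      apply hcne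
      have : c * a = -b := by linear_combination h
      rw [← neg_mul, ← this, mul_assoc, mul_inv_cancel₀ h0, mul_one]
    · intro h
      exact absurd (Finset.mem_univ _) h

variable [TopologicalSpace G] [IsTopologicalGroup G]

theorem exists_char (p : ℕ) [Fact p.Prime] (hG : Nice G) {N : Subgroup G}
    (hN : IsOpen (N : Set G)) :
    ∃ ν : G →* Multiplicative (ZMod p), IsOpen (ν.ker : Set G) ∧ ∃ n ∈ N, ν n ≠ 1 := by
  classical
  obtain ⟨N', θ, h1, h2, h3, h4, h5, h6⟩ :=
    hG.emb p Fact.out _ (hG.core hN) (Subgroup.normalCore_normal _)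
  haveI := h1
  haveI := hG.fin h2
  haveI : Fintype (G ⧸ N') := Fintype.ofFinite _
  have hNe : NeZero p := ⟨(Fact.out : p.Prime).ne_zero⟩
  obtain ⟨D0, hD0⟩ := exists_cdata hG h2 h4 h5 h6
  obtain ⟨D, hD1, hD2, -, hD3⟩ := hD0 (ZMod p) (Representation.trivial (ZMod p) G (ZMod p))
    (LinearMap.pi fun _ => LinearMap.id) (by
      intro a b hab
      have := congrFun hab ((1 : G) : G ⧸ N')
      exact this) (by
      intro g m x
      rfl)
  have hρ : ∀ g m, D.ρ g m = m := by
    intro g m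
    rw [hD1]
    rfl
  refine ⟨MonoidHom.mk' (fun g => Multiplicative.ofAdd (D.z g 1)) ?_, ?_, ?_⟩
  · intro a b
    rw [← ofAdd_add, D.coc, hρ]
  · obtain ⟨U, hU, hUz⟩ := hD2.op
    refine Subgroup.isOpen_mono ?_ hU
    intro u hu
    rw [MonoidHom.mem_ker]
    change Multiplicative.ofAdd (D.z u 1) = 1
    rw [(hUz u hu).2]
    rfl
  · obtain ⟨n, hn, hn2⟩ := hD3 LinearMap.id
    refine ⟨n, Subgroup.normalCore_le _ (h3 hn), ?_⟩
    change Multiplicative.ofAdd (D.z n 1) ≠ 1
    rw [hn2]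
    intro h
    have h' : Multiplicative.ofAdd (1 : ZMod p) = Multiplicative.ofAdd 0 := h
    have h7 := Multiplicative.ofAdd.injective h'
    have : Nontrivial (ZMod p) := ZMod.nontrivial_iff.2 (Fact.out : p.Prime).ne_one
    exact one_ne_zero h7

private theorem smul_pc_aux {m : ℕ}
    (ih : ∀ (G : Type) [Group G] [TopologicalSpace G] [IsTopologicalGroup G], Nice G →
      (m : ℤ) • (1 : G → ℤ) ∈ P G m) (hG : Nice G) {J : Subgroup G}
    (hJ : IsOpen (J : Set G)) : (m : ℤ) • pc J ∈ P G (m * J.index) := by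
  classical
  haveI := hG.fin hJ
  haveI : Fintype (G ⧸ J) := Fintype.ofFinite _
  have h1 := hG.ind_mem hJ (ih J (hG.sub hJ))
  rw [map_zsmul, ind_one] at h1
  exact h1

private theorem smul_aux (m : ℕ) : ∀ (G : Type) [Group G] [TopologicalSpace G]
    [IsTopologicalGroup G], Nice G → (m : ℤ) • (1 : G → ℤ) ∈ P G m := by
  induction m using Nat.strong_induction_on with
  | _ m ih =>
    intro G _ _ _ hG
    rcases Nat.eq_zero_or_pos m with rfl | hm
    · rw [Nat.cast_zero, zero_smul]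
      exact AddSubgroup.zero_mem _
    rcases eq_or_ne m 1 with rfl | hm1
    · rw [Nat.cast_one, one_smul, ← pc_top]
      exact pc_mem_P isOpen_univ (by simp)
    obtain ⟨p, hp, k, hk⟩ : ∃ p : ℕ, p.Prime ∧ ∃ k, m = p * k :=
      ⟨m.minFac, Nat.minFac_prime hm1, m.minFac_dvd⟩
    haveI : Fact p.Prime := ⟨hp⟩
    have hkm : k < m := by
      have hk0 : 0 < k := by
        rcases Nat.eq_zero_or_pos k with h | h
        · rw [h, mul_zero] at hk
          omega
        · exact h
      rw [hk]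
      have := hp.two_le
      nlinarith
    obtain ⟨l1, h1o, n1, -, hn1⟩ := exists_char p hG (N := ⊤) isOpen_univ
    obtain ⟨l2, h2o, n2, hn2, hn2'⟩ := exists_char p hG (N := l1.ker) h1o
    have key : ∀ J : Subgroup G, IsOpen (J : Set G) → p ∣ J.index → (k : ℤ) • pc J ∈ P G m := by
      intro J hJ hpJ
      refine P_mono ?_ (smul_pc_aux (ih k hkm) hG hJ)
      rw [hk, mul_comm p k]
      exact Nat.mul_dvd_mul_left k hpJ
    have hrel := relA l1 l2 ⟨n1, hn1⟩ ⟨n2, hn2, hn2'⟩
    have hinf : IsOpen ((l1.ker ⊓ l2.ker : Subgroup G) : Set G) := by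
      rw [Subgroup.coe_inf]
      exact h1o.inter h2o
    have e1 : (m : ℤ) • (1 : G → ℤ) = (k : ℤ) • pc l1.ker +
        ∑ c : ZMod p, (k : ℤ) • pc ((l2 * l1 ^ c.val).ker) -
        (k : ℤ) • pc (l1.ker ⊓ l2.ker) := by
      rw [← Finset.smul_sum, ← smul_add, ← hrel, smul_add, add_sub_cancel_right, smul_smul, hk]
      push_cast
      rw [mul_comm]
    rw [e1]
    refine AddSubgroup.sub_mem _ (AddSubgroup.add_mem _ ?_ (AddSubgroup.sum_mem _ ?_)) ?_
    · exact key _ h1o (ker_index l1 ⟨n1, hn1⟩).symm.dvd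
    · intro c _
      refine key _ (Subgroup.isOpen_mono ?_ hinf) ?_
      · rintro x ⟨hx1, hx2⟩
        rw [MonoidHom.mem_ker, MonoidHom.mul_apply, MonoidHom.pow_apply,
          MonoidHom.mem_ker.1 hx1, MonoidHom.mem_ker.1 hx2, one_pow, mul_one]
      · refine (ker_index _ ⟨n2, ?_⟩).symm.dvd
        rw [MonoidHom.mul_apply, MonoidHom.pow_apply, MonoidHom.mem_ker.1 hn2, one_pow, mul_one]
        exact hn2'
    · refine key _ hinf ?_
      rw [inf_index l1 l2 ⟨n1, hn1⟩ ⟨n2, hn2, hn2'⟩]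
      exact dvd_pow_self p two_ne_zero

theorem smul_one_mem (hG : Nice G) (m : ℕ) : (m : ℤ) • (1 : G → ℤ) ∈ P G m := by
  exact smul_aux m G hG

theorem smul_pc_mem (hG : Nice G) {J : Subgroup G} (hJ : IsOpen (J : Set G)) (m : ℕ) :
    (m : ℤ) • pc J ∈ P G (m * J.index) := by
  exact smul_pc_aux (fun G _ _ _ h => smul_aux m G h) hG hJ

end Pool.Agent.H73.DG
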