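import Pool.Agent.H73.DG.DStep

/-! # The main theorem for Nice groups -/

namespace Pool.Agent.H73.DG

open MulAction

section primes

variable {p : ℕ} [Fact p.Prime]

/-- multiplication by `p` raises the level -/
theorem p_smul_P {G : Type} [Group G] [TopologicalSpace G] [IsTopologicalGroup G] (hG : Nice G)
    (m k : ℕ) {f : G → ℤ} (hf : f ∈ P G m) : (k : ℤ) • f ∈ P G (k * m) := by
  unfold P at hf
  induction hf using AddSubgroup.closure_induction with
  | mem f hf =>
    obtain ⟨H, hH, hm, rfl⟩ := hf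
    exact P_mono (Nat.mul_dvd_mul_left k hm) (smul_pc_mem hG hH k)
  | zero => rw [smul_zero]; exact AddSubgroup.zero_mem _
  | add f f' _ _ h h' => rw [smul_add]; exact AddSubgroup.add_mem _ h h'
  | neg f _ h => rw [smul_neg]; exact AddSubgroup.neg_mem _ h

theorem step_mem {G : Type} [Group G] [TopologicalSpace G] [IsTopologicalGroup G] (hG : Nice G)
    (k : ℕ) : ∀ H : Subgroup G, IsOpen (H : Set G) → p ^ k ∣ H.index →
      pc H - (H.index : ℤ) • (1 : G → ℤ) ∈ P G (p ^ (k + 1)) := by
  have hpr : p.Prime := Fact.out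
  induction k with
  | zero =>
    intro H hH _
    rw [zero_add, pow_one]
    by_cases hp : p ∣ H.index
    · refine AddSubgroup.sub_mem _ (pc_mem_P hH hp) ?_
      exact P_mono hp (smul_one_mem hG _)
    · exact prime_to_mem hG hH hp
  | succ k ih =>
    intro H hH hk
    by_cases hk2 : p ^ (k + 1 + 1) ∣ H.index
    · refine AddSubgroup.sub_mem _ (pc_mem_P hH hk2) ?_
      exact P_mono hk2 (smul_one_mem hG _)
    set N := H.normalCore with hN
    have hNo : IsOpen (N : Set G) := hG.core hH
    haveI hNn : N.Normal := Subgroup.normalCore_normal H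
    haveI := hG.finiteIndex hNo
    have hNH : N ≤ H := Subgroup.normalCore_le H
    obtain ⟨T, hT, hTH, hTp⟩ := exists_syl p N H hNH
    have hTo : IsOpen (T : Set G) := Subgroup.isOpen_mono hT.1 hNo
    have hTi : T.relIndex H * H.index = T.index := Subgroup.relIndex_mul_index hTH
    -- from `H` to `T`
    have h1 := prime_to_mem (hG.sub hH) (open_comap hTo H) hTp
    have h2 := hG.ind_step hH hTo hTH h1
    have h3 : pc T - ((T.relIndex H : ℕ) : ℤ) • pc H ∈ P G (p ^ (k + 1 + 1)) :=
      P_mono (by rw [pow_succ' p (k + 1)]; exact Nat.mul_dvd_mul_left p hk) h2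
    -- from `T` to `T'`
    have hpT : p ∣ T.index := by
      rw [← hTi]
      exact Dvd.dvd.mul_left ((dvd_pow_self p (Nat.succ_ne_zero k)).trans hk) _
    obtain ⟨T', hT', hTT', hTT'i, hTT'n⟩ := exists_over N T hT hpT
    have hT'o : IsOpen (T' : Set G) := Subgroup.isOpen_mono hT'.1 hNo
    have hT'i : p * T'.index = T.index := by
      rw [← hTT'i]
      exact Subgroup.relIndex_mul_index hTT'
    have hk' : p ^ k ∣ T'.index := by
      have h4 : p ^ (k + 1) ∣ p * T'.index := by
        rw [hT'i, ← hTi]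
        exact Dvd.dvd.mul_left hk _
      rw [pow_succ'] at h4
      exact Nat.dvd_of_mul_dvd_mul_left hpr.pos h4
    have h5 := normal_mem (hG.sub hT'o) (open_comap hTo T') hTT'n hTT'i
    have h6 := hG.ind_step hT'o hTo hTT' h5
    have h7 : pc T - (p : ℤ) • pc T' ∈ P G (p ^ (k + 1 + 1)) :=
      P_mono (by
        rw [show p ^ (k + 1 + 1) = p ^ 2 * p ^ k by ring]
        exact Nat.mul_dvd_mul_left _ hk') h6
    have h8 := ih T' hT'o hk'
    have h9 := p_smul_P hG _ p h8
    rw [← pow_succ', smul_sub, smul_smul, ← Nat.cast_mul, hT'i] at h9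
    -- conclusion
    have h10 : ((T.relIndex H : ℕ) : ℤ) • (pc H - (H.index : ℤ) • (1 : G → ℤ)) ∈
        P G (p ^ (k + 1 + 1)) := by
      have : ((T.relIndex H : ℕ) : ℤ) • (pc H - (H.index : ℤ) • (1 : G → ℤ)) =
          (pc T - (p : ℤ) • pc T') + ((p : ℤ) • pc T' - (T.index : ℤ) • (1 : G → ℤ)) -
            (pc T - ((T.relIndex H : ℕ) : ℤ) • pc H) := by
        rw [smul_sub, smul_smul, ← Nat.cast_mul, hTi]
        abel
      rw [this]
      exact AddSubgroup.sub_mem _ (AddSubgroup.add_mem _ h7 h9) h3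
    have h11 : ((p : ℕ) : ℤ) • (pc H - (H.index : ℤ) • (1 : G → ℤ)) ∈ P G (p ^ (k + 1 + 1)) := by
      have h12 : pc H - (H.index : ℤ) • (1 : G → ℤ) ∈ P G (p ^ (k + 1)) :=
        AddSubgroup.sub_mem _ (pc_mem_P hH hk) (P_mono hk (smul_one_mem hG _))
      have := p_smul_P hG _ p h12
      rwa [← pow_succ'] at this
    exact mem_of_coprime ((Nat.Prime.coprime_iff_not_dvd hpr).2 hTp).symm h10 h11

theorem level_up {G : Type} [Group G] [TopologicalSpace G] [IsTopologicalGroup G] (hG : Nice G)
    (k : ℕ) {f : G → ℤ} (hf : f ∈ P G (p ^ k)) :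
    f - (f 1) • (1 : G → ℤ) ∈ P G (p ^ (k + 1)) := by
  unfold P at hf
  induction hf using AddSubgroup.closure_induction with
  | mem f hf =>
    obtain ⟨H, hH, hm, rfl⟩ := hf
    rw [pc_one]
    exact step_mem hG k H hH hm
  | zero =>
    rw [Pi.zero_apply, zero_smul, sub_zero]
    exact AddSubgroup.zero_mem _
  | add f f' _ _ h h' =>
    have : f + f' - ((f + f') 1) • (1 : G → ℤ) =
        (f - (f 1) • (1 : G → ℤ)) + (f' - (f' 1) • (1 : G → ℤ)) := by
      rw [Pi.add_apply, add_smul]; abel
    rw [this]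
    exact AddSubgroup.add_mem _ h h'
  | neg f _ h =>
    have : -f - ((-f) 1) • (1 : G → ℤ) = -(f - (f 1) • (1 : G → ℤ)) := by
      rw [Pi.neg_apply, neg_smul]; abel
    rw [this]
    exact AddSubgroup.neg_mem _ h

theorem ppow_mem {G : Type} [Group G] [TopologicalSpace G] [IsTopologicalGroup G] (hG : Nice G)
    {H : Subgroup G} (hH : IsOpen (H : Set G)) (k : ℕ) :
    pc H - (H.index : ℤ) • (1 : G → ℤ) ∈ P G (p ^ k) := by
  induction k with
  | zero =>
    rw [pow_zero]
    refine AddSubgroup.sub_mem _ (pc_mem_P hH (one_dvd _)) (AddSubgroup.zsmul_mem _ ?_ _)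
    rw [← pc_top]
    exact pc_mem_P isOpen_univ (one_dvd _)
  | succ k ih =>
    have h := level_up hG k ih
    have h1 : (pc H - (H.index : ℤ) • (1 : G → ℤ)) 1 = 0 := by
      rw [Pi.sub_apply, pc_one]
      simp
    rwa [h1, zero_smul, sub_zero] at h

end primes

/-- the main theorem: every permutation character is, up to a multiple of the trivial one,
a combination of permutation characters of degree divisible by `m` -/
theorem main {G : Type} [Group G] [TopologicalSpace G] [IsTopologicalGroup G] (hG : Nice G)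
    {H : Subgroup G} (hH : IsOpen (H : Set G)) (m : ℕ) (hm : m ≠ 0) :
    pc H - (H.index : ℤ) • (1 : G → ℤ) ∈ P G m := by
  induction m using Nat.recOnPosPrimePosCoprime with
  | prime_pow q n hq hn =>
    haveI : Fact q.Prime := ⟨hq⟩
    exact ppow_mem hG hH n
  | zero => exact absurd rfl hm
  | one =>
    haveI : Fact (Nat.Prime 2) := ⟨Nat.prime_two⟩
    have := ppow_mem (p := 2) hG hH 0
    rwa [pow_zero] at this
  | coprime a b ha hb hab iha ihb =>
    have h1 := p_smul_P hG a b (iha (by omega))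
    have h2 := p_smul_P hG b a (ihb (by omega))
    rw [mul_comm b a] at h1
    exact mem_of_coprime hab h2 h1

end Pool.Agent.H73.DG
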