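import Pool.Agent.H73.DG.Basic

/-! # Induction of permutation characters -/

namespace Pool.Agent.H73.DG

open MulAction

variable {G : Type} [Group G]

open Classical in
/-- induction of functions from a subgroup of finite index -/
noncomputable def ind (H : Subgroup G) [Fintype (G ⧸ H)] : (H → ℤ) →+ (G → ℤ) where
  toFun f g := ∑ x : G ⧸ H, if h : x.out⁻¹ * g * x.out ∈ H then f ⟨_, h⟩ else 0
  map_zero' := by
    funext g
    simp
  map_add' f f' := by
    funext g
    simp only [Pi.add_apply]
    rw [← Finset.sum_add_distrib]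
    refine Finset.sum_congr rfl fun x _ => ?_
    split_ifs <;> simp

theorem ind_pc (H : Subgroup G) [Fintype (G ⧸ H)] (K : Subgroup H) [Finite (H ⧸ K)] :
    ind H (pc K) = pc (K.map H.subtype) := by
  classical
  set K' := K.map H.subtype with hK'
  have hKH : K' ≤ H := Subgroup.map_subtype_le K
  funext g
  change (∑ x : G ⧸ H, if h : x.out⁻¹ * g * x.out ∈ H then pc K ⟨_, h⟩ else 0) = pc K' g
  have hmem : ∀ h : H, (h : G) ∈ K' ↔ h ∈ K := by
    intro h
    rw [hK', Subgroup.mem_map]
    constructor
    · rintro ⟨k, hk, hkh⟩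
      have : k = h := Subtype.ext hkh
      rw [← this]; exact hk
    · intro hh
      exact ⟨h, hh, rfl⟩
  -- the projection
  let π : G ⧸ K' → G ⧸ H := Quotient.map' id (by
    intro a b hab
    rw [QuotientGroup.leftRel_apply] at hab ⊢
    exact hKH hab)
  -- the embeddings
  let ε : (x : G ⧸ H) → H ⧸ K → G ⧸ K' := fun x => Quotient.map' (fun h : H => x.out * (h : G)) (by
    intro a b hab
    rw [QuotientGroup.leftRel_apply] at hab ⊢
    have : (x.out * (a : G))⁻¹ * (x.out * (b : G)) = ((a⁻¹ * b : H) : G) := by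
      push_cast
      group
    rw [this]
    exact (hmem _).2 hab)
  have hε : ∀ (x : G ⧸ H) (h : H), ε x (h : H ⧸ K) = ((x.out * (h : G) : G) : G ⧸ K') :=
    fun x h => rfl
  have hπ : ∀ a : G, π (a : G ⧸ K') = (a : G ⧸ H) := fun a => rfl
  have hεinj : ∀ x, Function.Injective (ε x) := by
    intro x a b
    induction a using QuotientGroup.induction_on with
    | H a =>
      induction b using QuotientGroup.induction_on with
      | H b =>
        intro hab
        rw [hε, hε, QuotientGroup.eq] at hab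
        have : (x.out * (a : G))⁻¹ * (x.out * (b : G)) = ((a⁻¹ * b : H) : G) := by
          push_cast
          group
        rw [this] at hab
        rw [QuotientGroup.eq]
        exact (hmem _).1 hab
  have hεπ : ∀ (x : G ⧸ H) (q : H ⧸ K), π (ε x q) = x := by
    intro x q
    induction q using QuotientGroup.induction_on with
    | H a =>
      rw [hε, hπ]
      have h1 : ((x.out : G) : G ⧸ H) = x := QuotientGroup.out_eq' x
      conv_rhs => rw [← h1]
      rw [QuotientGroup.eq]
      simp
  have hεsurj : ∀ (y : G ⧸ K'), ∃ q, ε (π y) q = y := by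
    intro y
    induction y using QuotientGroup.induction_on with
    | H a =>
      have h1 : (((π (a : G ⧸ K')).out : G) : G ⧸ H) = (a : G ⧸ H) := by
        rw [QuotientGroup.out_eq']; rfl
      rw [QuotientGroup.eq] at h1
      refine ⟨((⟨_, h1⟩ : H) : H ⧸ K), ?_⟩
      rw [hε]
      congr 1
      simp
  have hact : ∀ (x : G ⧸ H) (h : x.out⁻¹ * g * x.out ∈ H) (q : H ⧸ K),
      ε x ((⟨_, h⟩ : H) • q) = g • ε x q := by
    intro x h q
    induction q using QuotientGroup.induction_on with
    | H a =>
      change ε x (((⟨_, h⟩ * a : H)) : H ⧸ K) = g • ε x (a : H ⧸ K)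
      rw [hε, hε]
      change _ = ((g * (x.out * (a : G)) : G) : G ⧸ K')
      congr 1
      push_cast
      group
  have hmov : ∀ (x : G ⧸ H) (q : H ⧸ K), g • ε x q = ε x q → x.out⁻¹ * g * x.out ∈ H := by
    intro x q hq
    have h1 : g • x = x := by
      have h2 : π (g • ε x q) = g • π (ε x q) := by
        generalize ε x q = y
        induction y using QuotientGroup.induction_on with
        | H a => rfl
      rw [hq, hεπ] at h2
      exact h2.symm
    have h3 : ((x.out : G) : G ⧸ H) = x := QuotientGroup.out_eq' x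
    rw [← h3] at h1
    have h4 : ((g * x.out : G) : G ⧸ H) = ((x.out : G) : G ⧸ H) := h1
    rw [QuotientGroup.eq] at h4
    have h5 : x.out⁻¹ * g * x.out = ((g * x.out)⁻¹ * x.out)⁻¹ := by group
    rw [h5]
    exact H.inv_mem h4
  have hfin : Finite (G ⧸ K') := by
    refine Finite.of_surjective (fun z : (Σ _ : G ⧸ H, H ⧸ K) => ε z.1 z.2) ?_
    intro y
    obtain ⟨q, hq⟩ := hεsurj y
    exact ⟨⟨_, q⟩, hq⟩
  unfold pc pch
  let f : fixedBy (G ⧸ K') g → G ⧸ H := fun y => π y.1
  rw [Nat.card_congr (Equiv.sigmaFiberEquiv f).symm, Nat.card_sigma]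
  push_cast
  refine Finset.sum_congr rfl fun x _ => ?_
  split_ifs with h
  · congr 1
    refine Nat.card_congr (Equiv.ofBijective (fun q : fixedBy (H ⧸ K) (⟨_, h⟩ : H) =>
      (⟨⟨ε x q.1, ?_⟩, ?_⟩ : {y : fixedBy (G ⧸ K') g // f y = x})) ⟨?_, ?_⟩)
    · rw [mem_fixedBy, ← hact x h, q.2]
    · exact hεπ x q.1
    · intro q q' hqq
      simp only [Subtype.mk.injEq] at hqq
      exact Subtype.ext (hεinj x hqq)
    · rintro ⟨⟨y, hy⟩, hyx⟩
      have hyx' : π y = x := hyx
      obtain ⟨q, hq⟩ := hεsurj y
      rw [hyx'] at hq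
      refine ⟨⟨q, ?_⟩, ?_⟩
      · rw [mem_fixedBy]
        apply hεinj x
        rw [hact x h, hq]
        exact hy
      · simp only [Subtype.mk.injEq]
        exact hq
  · symm
    rw [Nat.cast_eq_zero, Nat.card_eq_zero]
    left
    refine ⟨fun z => ?_⟩
    obtain ⟨⟨y, hy⟩, hyx⟩ := z
    have hyx' : π y = x := hyx
    obtain ⟨q, hq⟩ := hεsurj y
    rw [hyx'] at hq
    apply h
    apply hmov x q
    rw [hq]
    exact hy

theorem ind_one (H : Subgroup G) [Fintype (G ⧸ H)] : ind H 1 = pc H := by
  have h := ind_pc H (⊤ : Subgroup H)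
  rw [pc_top] at h
  rw [h]
  congr 1
  ext x
  simp

variable [TopologicalSpace G]

theorem ind_mem_P {H : Subgroup G} [Fintype (G ⧸ H)] (hH : IsOpen (H : Set G)) {m : ℕ}
    {f : H → ℤ} (hf : f ∈ P H m) (hfin : ∀ K : Subgroup H, IsOpen (K : Set H) → Finite (H ⧸ K)) :
    ind H f ∈ P G (m * H.index) := by
  unfold P at hf
  induction hf using AddSubgroup.closure_induction with
  | mem f hf =>
    obtain ⟨K, hK, hm, rfl⟩ := hf
    haveI := hfin K hK
    rw [ind_pc]
    refine pc_mem_P ?_ ?_
    · have : ((K.map H.subtype : Subgroup G) : Set G) = Subtype.val '' (K : Set H) := by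
        ext x
        simp
      rw [this]
      exact hH.isOpenMap_subtype_val _ hK
    · rw [Subgroup.index_map_subtype]
      exact Nat.mul_dvd_mul_right hm _
  | zero => rw [map_zero]; exact AddSubgroup.zero_mem _
  | add f f' _ _ h h' => rw [map_add]; exact AddSubgroup.add_mem _ h h'
  | neg f _ h => rw [map_neg]; exact AddSubgroup.neg_mem _ h

end Pool.Agent.H73.DG
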