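import Mathlib

/-! # Kummer theory: independence of the conjugates of a Kummer character

PLAN. `Ω = AlgebraicClosure ℚ`, `G = Ω ≃ₐ[ℚ] Ω`, `N = L.fixingSubgroup`. Choose `β : Ω` with
`β ^ p = b` (`IsAlgClosed.exists_pow_nat_eq`), `β ≠ 0`. For `n ∈ N`: `(n β / β) ^ p = 1`, so there
is a unique `e : ZMod p` with `n β = ζ ^ e.val * β` (`IsPrimitiveRoot.eq_pow_of_pow_eq_one`,
`IsPrimitiveRoot.pow_inj`); `θ n := e` (`θ g := 0` for `g ∉ N`). Additivity on `N`:
`a (b β) = a (ζ ^ i * β) = ζ ^ i * ζ ^ j * β` (`a` fixes `ζ ∈ L`), `ζ ^ (i + j) = ζ ^ (i+j).val` by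
`ζ ^ p = 1`. `U` := the stabilizer of `β` intersected with `N` (open:
`(ℚ⟮β⟯).fixingSubgroup` is open, `IntermediateField.fixingSubgroup_isOpen`; `N` is open by the
same lemma); there `θ = 0`.
Independence. For `g : G` there is `χ g : (ZMod p)ˣ` (or `k` prime to `p`) with
`g ζ = ζ ^ (χ g).val` (`IsPrimitiveRoot.autToPow` or by hand). For `n ∈ N`, with
`e = θ (g⁻¹ * n * g)` (`g⁻¹ n g ∈ N` because `L / ℚ` is normal):
`n (g β) = g (ζ ^ e * β) = (g ζ) ^ e * g β = ζ ^ (χ(g) e) * g β`.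
Let `ei := (c i * (χ (f i))⁻¹ : ZMod p).val` and `w := ∏ i, (f i β) ^ ei : Ω`. For `n ∈ N`:
`n w = ζ ^ (∑ i, ei χ(f i) θ ((f i)⁻¹ n (f i))) * w = ζ ^ (∑ c i θ(..)) * w = w`.
Hence `w ∈ L` (`InfiniteGalois.fixedField_fixingSubgroup` or
`IntermediateField.fixedField_fixingSubgroup`: an element fixed by `L.fixingSubgroup` is in `L`,
`Ω / L` is Galois). `w ^ p = ∏ i, (f i b) ^ ei` (in `L`: `f i b = (f i)|_L b`, where
`γi := (f i).restrictNormal L`, `AlgEquiv.restrictNormal_commutes`). Fix `j` and apply `v` to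
`(γj⁻¹ w) ^ p = ∏ i, (γj⁻¹ γi b) ^ ei`: left side `p * v(..)`, right side `∑ i, ei * δ_{ij} = ej`,
because `γj⁻¹ γi = 1` only for `i = j` (if `γj⁻¹ γi = 1` then `(f j)⁻¹ * f i ∈ N`). So `p ∣ ej`,
i.e. `c j * (χ (f j))⁻¹ = 0` and `c j = 0`. -/

namespace Pool.Agent.H73.DG

private lemma isAC : IsAlgClosure ℚ (AlgebraicClosure ℚ) := by
  have h : (DivisionRing.toRatAlgebra : Algebra ℚ (AlgebraicClosure ℚ)) =
    AlgebraicClosure.instAlgebra ℚ := Subsingleton.elim _ _
  have h2 : @IsAlgClosure ℚ (AlgebraicClosure ℚ) _ _ (AlgebraicClosure.instAlgebra ℚ) _ :=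
    inferInstance
  rw [h]
  exact h2

private lemma isGal : IsGalois ℚ (AlgebraicClosure ℚ) := by
  have := isAC
  have := IsAlgClosure.isAlgebraic (R := ℚ) (K := AlgebraicClosure ℚ)
  exact { to_isSeparable := inferInstance
          to_normal := IsAlgClosure.normal ℚ _ }

theorem kummer_core {p : ℕ} [Fact p.Prime] (L : IntermediateField ℚ (AlgebraicClosure ℚ))
    [FiniteDimensional ℚ L] [IsGalois ℚ L] {ζ : AlgebraicClosure ℚ} (hζ : IsPrimitiveRoot ζ p)
    (hζL : ζ ∈ L) (v : L → ℤ) (b : L)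
    (hv : ∀ x y : L, x ≠ 0 → y ≠ 0 → v (x * y) = v x + v y) (hb : b ≠ 0) (hvb : v b = 1)
    (hvγ : ∀ γ : L ≃ₐ[ℚ] L, γ ≠ 1 → v (γ b) = 0) :
    ∃ θ : (AlgebraicClosure ℚ ≃ₐ[ℚ] AlgebraicClosure ℚ) → ZMod p,
      (∀ a ∈ L.fixingSubgroup, ∀ b ∈ L.fixingSubgroup, θ (a * b) = θ a + θ b) ∧
      (∃ U : Subgroup (AlgebraicClosure ℚ ≃ₐ[ℚ] AlgebraicClosure ℚ),
        IsOpen (U : Set (AlgebraicClosure ℚ ≃ₐ[ℚ] AlgebraicClosure ℚ)) ∧
        U ≤ L.fixingSubgroup ∧ ∀ u ∈ U, θ u = 0) ∧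
      ∀ (ι : Type) [Fintype ι] (f : ι → (AlgebraicClosure ℚ ≃ₐ[ℚ] AlgebraicClosure ℚ))
        (c : ι → ZMod p), (∀ i j, (f i)⁻¹ * f j ∈ L.fixingSubgroup → i = j) →
        (∀ n ∈ L.fixingSubgroup, ∑ i, c i * θ ((f i)⁻¹ * n * f i) = 0) → c = 0 := by
  classical
  have := isGal
  have hp : p.Prime := Fact.out
  -- powers of ζ indexed by ZMod p
  obtain ⟨Z, hZ⟩ : ∃ Z : ZMod p → AlgebraicClosure ℚ, ∀ e, Z e = ζ ^ e.val := ⟨_, fun _ => rfl⟩
  have hζ1 : ζ ^ p = 1 := hζ.pow_eq_one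
  have Zn : ∀ n : ℕ, Z (n : ZMod p) = ζ ^ n := by
    intro n
    rw [hZ, ZMod.val_natCast, ← pow_eq_pow_mod n hζ1]
  have Z0 : Z 0 = 1 := by
    have := Zn 0
    rwa [Nat.cast_zero, pow_zero] at this
  have Zadd : ∀ a b, Z (a + b) = Z a * Z b := by
    intro a b
    have h := Zn (a.val + b.val)
    rw [Nat.cast_add, ZMod.natCast_zmod_val, ZMod.natCast_zmod_val] at h
    rw [h, pow_add, hZ, hZ]
  have Zpow : ∀ (a : ZMod p) (k : ℕ), (Z a) ^ k = Z (a * k) := by
    intro a k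
    induction k with
    | zero => rw [pow_zero, Nat.cast_zero, mul_zero, Z0]
    | succ k ih => rw [pow_succ, ih, Nat.cast_succ, mul_add, mul_one, Zadd]
  have Zinj : ∀ a b, Z a = Z b → a = b := by
    intro a b h
    rw [hZ, hZ] at h
    exact ZMod.val_injective p (hζ.pow_inj (ZMod.val_lt a) (ZMod.val_lt b) h)
  have Zex : ∀ x : AlgebraicClosure ℚ, x ^ p = 1 → ∃ e, x = Z e := by
    intro x hx
    obtain ⟨i, hi, h⟩ := hζ.eq_pow_of_pow_eq_one hx
    exact ⟨(i : ZMod p), by rw [Zn, h]⟩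
  have Zne : ∀ a, Z a ≠ 0 := by
    intro a h
    have h2 : Z a * Z (-a) = 1 := by rw [← Zadd, add_neg_cancel, Z0]
    rw [h, zero_mul] at h2
    exact zero_ne_one h2
  have ZL : ∀ e, Z e ∈ L := fun e => by rw [hZ]; exact pow_mem hζL _
  have hfix : ∀ n ∈ L.fixingSubgroup, ∀ x ∈ L, n x = x := fun n hn x hx =>
    (IntermediateField.mem_fixingSubgroup_iff L n).1 hn x hx
  -- the root
  obtain ⟨β, hβ⟩ := IsAlgClosed.exists_pow_nat_eq (b : AlgebraicClosure ℚ) hp.pos
  have hb' : (b : AlgebraicClosure ℚ) ≠ 0 := by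
    intro h
    exact hb (Subtype.ext h)
  have hβ0 : β ≠ 0 := by
    rintro rfl
    rw [zero_pow hp.ne_zero] at hβ
    exact hb' hβ.symm
  have hex : ∀ n ∈ L.fixingSubgroup, ∃ e, n β = Z e * β := by
    intro n hn
    have h1 : (n β / β) ^ p = 1 := by
      rw [div_pow, ← map_pow, hβ, hfix n hn _ b.2, div_self hb']
    obtain ⟨e, he⟩ := Zex _ h1
    exact ⟨e, by rw [← he, div_mul_cancel₀ _ hβ0]⟩
  obtain ⟨θ, hθ⟩ : ∃ θ : (AlgebraicClosure ℚ ≃ₐ[ℚ] AlgebraicClosure ℚ) → ZMod p,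
      ∀ n ∈ L.fixingSubgroup, n β = Z (θ n) * β := by
    choose! θ hθ using hex
    exact ⟨θ, hθ⟩
  have huniq : ∀ n ∈ L.fixingSubgroup, ∀ e, n β = Z e * β → θ n = e := by
    intro n hn e he
    rw [hθ n hn] at he
    exact Zinj _ _ (mul_right_cancel₀ hβ0 he)
  have hconj : ∀ n ∈ L.fixingSubgroup, ∀ g : AlgebraicClosure ℚ ≃ₐ[ℚ] AlgebraicClosure ℚ,
      g⁻¹ * n * g ∈ L.fixingSubgroup := by
    intro n hn g
    rw [IntermediateField.mem_fixingSubgroup_iff]
    intro x hx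
    have h1 : g x ∈ L := by
      have := AlgEquiv.restrictNormal_commutes g L ⟨x, hx⟩
      have h2 : g x = ((g.restrictNormal L) ⟨x, hx⟩ : AlgebraicClosure ℚ) := this.symm
      rw [h2]
      exact Subtype.mem _
    change g⁻¹ (n (g x)) = x
    rw [hfix n hn _ h1]
    exact g.symm_apply_apply x
  refine ⟨θ, ?_, ?_, ?_⟩
  · intro a ha c hc
    apply huniq _ (mul_mem ha hc)
    change a (c β) = _
    rw [hθ c hc, map_mul, hfix a ha _ (ZL _), hθ a ha, Zadd]
    ring
  · refine ⟨L.fixingSubgroup ⊓ (IntermediateField.adjoin ℚ {β}).fixingSubgroup, ?_, inf_le_left, ?_⟩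
    · have : FiniteDimensional ℚ (IntermediateField.adjoin ℚ {β}) :=
        IntermediateField.adjoin.finiteDimensional (Algebra.IsIntegral.isIntegral β)
      rw [Subgroup.coe_inf]
      exact (IntermediateField.fixingSubgroup_isOpen L).inter
        (IntermediateField.fixingSubgroup_isOpen _)
    · intro u hu
      obtain ⟨hu1, hu2⟩ := hu
      have h1 : u β = β := (IntermediateField.mem_fixingSubgroup_iff _ u).1 hu2 β
        (IntermediateField.mem_adjoin_simple_self ℚ β)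
      apply huniq u hu1
      rw [h1, Z0, one_mul]
  · intro ι _ f c hf hsum
    -- the cyclotomic character
    have hχ : ∀ g : AlgebraicClosure ℚ ≃ₐ[ℚ] AlgebraicClosure ℚ, ∃ k : ZMod p,
        k ≠ 0 ∧ g ζ = Z k := by
      intro g
      obtain ⟨k, hk⟩ := Zex (g ζ) (by rw [← map_pow, hζ1, map_one])
      refine ⟨k, ?_, hk⟩
      rintro rfl
      rw [Z0] at hk
      have h1 : ζ = 1 := g.injective (by rw [hk, map_one])
      exact hζ.ne_one hp.one_lt h1
    choose χ hχ0 hχ using hχ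
    have gZ : ∀ (g : AlgebraicClosure ℚ ≃ₐ[ℚ] AlgebraicClosure ℚ) (e : ZMod p),
        g (Z e) = Z (χ g * e) := by
      intro g e
      rw [hZ e, map_pow, hχ, Zpow, ZMod.natCast_zmod_val]
    obtain ⟨ei, hei⟩ : ∃ ei : ι → ℕ, ∀ i, ei i = (c i * (χ (f i))⁻¹).val := ⟨_, fun _ => rfl⟩
    have hei' : ∀ i, (ei i : ZMod p) = c i * (χ (f i))⁻¹ := by
      intro i
      rw [hei, ZMod.natCast_zmod_val]
    obtain ⟨w, hw⟩ : ∃ w : AlgebraicClosure ℚ, w = ∏ i, (f i β) ^ ei i := ⟨_, rfl⟩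
    have hw0 : w ≠ 0 := by
      rw [hw]
      apply Finset.prod_ne_zero_iff.2
      intro i _
      apply pow_ne_zero
      intro h
      exact hβ0 ((map_eq_zero (f i)).1 h)
    have Zsum : ∀ s : Finset ι, ∀ a : ι → ZMod p, ∏ i ∈ s, Z (a i) = Z (∑ i ∈ s, a i) := by
      intro s a
      induction s using Finset.induction_on with
      | empty => rw [Finset.prod_empty, Finset.sum_empty, Z0]
      | insert i s his ih => rw [Finset.prod_insert his, Finset.sum_insert his, ih, Zadd]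
    have hnw : ∀ n ∈ L.fixingSubgroup, n w = w := by
      intro n hn
      have h1 : ∀ i, n (f i β) = Z (χ (f i) * θ ((f i)⁻¹ * n * f i)) * f i β := by
        intro i
        have h2 := hθ _ (hconj n hn (f i))
        have h3 : n (f i β) = f i (((f i)⁻¹ * n * f i) β) := by
          change n (f i β) = f i ((f i).symm (n (f i β)))
          rw [AlgEquiv.apply_symm_apply]
        rw [h3, h2, map_mul, gZ]
      rw [hw, map_prod]
      have h4 : ∀ i, n ((f i β) ^ ei i) =
          Z (c i * θ ((f i)⁻¹ * n * f i)) * (f i β) ^ ei i := by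
        intro i
        rw [map_pow, h1, mul_pow, Zpow, hei']
        congr 2
        field_simp [hχ0 (f i)]
      rw [Finset.prod_congr rfl (fun i _ => h4 i), Finset.prod_mul_distrib, Zsum, hsum n hn, Z0,
        one_mul]
    have hwL : w ∈ L := by
      have h1 : w ∈ IntermediateField.fixedField L.fixingSubgroup := by
        rw [IntermediateField.mem_fixedField_iff]
        exact hnw
      rwa [InfiniteGalois.fixedField_fixingSubgroup] at h1
    -- restrictions
    obtain ⟨γ, hγ⟩ : ∃ γ : ι → (L ≃ₐ[ℚ] L), ∀ i (x : L), (γ i x : AlgebraicClosure ℚ) = f i x :=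
      ⟨fun i => (f i).restrictNormal L, fun i x => AlgEquiv.restrictNormal_commutes (f i) L x⟩
    have hwp : (⟨w, hwL⟩ : L) ^ p = ∏ i, (γ i b) ^ ei i := by
      apply Subtype.ext
      push_cast
      rw [hw, ← Finset.prod_pow]
      apply Finset.prod_congr rfl
      intro i _
      rw [← pow_mul, mul_comm, pow_mul, ← map_pow, hβ, hγ]
    have hv1 : v 1 = 0 := by
      have := hv 1 1 one_ne_zero one_ne_zero
      rw [mul_one] at this
      omega
    have hvpow : ∀ (x : L), x ≠ 0 → ∀ k : ℕ, v (x ^ k) = k * v x := by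
      intro x hx k
      induction k with
      | zero => rw [pow_zero, hv1]; simp
      | succ k ih => rw [pow_succ, hv _ _ (pow_ne_zero _ hx) hx, ih]; push_cast; ring
    have hvprod : ∀ (s : Finset ι) (x : ι → L), (∀ i, x i ≠ 0) →
        v (∏ i ∈ s, x i) = ∑ i ∈ s, v (x i) := by
      intro s x hx
      induction s using Finset.induction_on with
      | empty => rw [Finset.prod_empty, Finset.sum_empty, hv1]
      | insert i s his ih =>
        rw [Finset.prod_insert his, Finset.sum_insert his,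
          hv _ _ (hx i) (Finset.prod_ne_zero_iff.2 fun i _ => hx i), ih]
    have hw0' : (⟨w, hwL⟩ : L) ≠ 0 := fun h => hw0 (congrArg Subtype.val h)
    funext j
    have hj : v ((γ j).symm ((⟨w, hwL⟩ : L) ^ p)) = v ((γ j).symm (∏ i, (γ i b) ^ ei i)) := by
      rw [hwp]
    have hne : ∀ i, (γ j).symm (γ i b) ≠ 0 := by
      intro i h
      have h1 := (map_eq_zero (γ j).symm).1 h
      exact hb ((map_eq_zero (γ i)).1 h1)
    rw [map_pow, hvpow _ (fun h => hw0' ((map_eq_zero (γ j).symm).1 h)), map_prod,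
      hvprod _ _ (fun i => by rw [map_pow]; exact pow_ne_zero _ (hne i))] at hj
    have hterm : ∀ i, v ((γ j).symm ((γ i b) ^ ei i)) = if i = j then (ei j : ℤ) else 0 := by
      intro i
      rw [map_pow, hvpow _ (hne i)]
      split_ifs with hij
      · subst hij
        rw [AlgEquiv.symm_apply_apply, hvb, mul_one]
      · have h1 : (γ j).symm (γ i b) = ((γ j)⁻¹ * γ i) b := rfl
        rw [h1, hvγ, mul_zero]
        intro h2
        apply hij
        symm
        apply hf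
        rw [IntermediateField.mem_fixingSubgroup_iff]
        intro x hx
        have h3 : γ i = γ j := by
          have := inv_mul_eq_one.1 h2
          exact this.symm
        change (f j).symm (f i x) = x
        have h4 : f i x = f j x := by
          have := hγ i ⟨x, hx⟩
          rw [h3, hγ j ⟨x, hx⟩] at this
          exact this.symm
        rw [h4, AlgEquiv.symm_apply_apply]
    rw [Finset.sum_congr rfl (fun i _ => hterm i), Finset.sum_ite_eq' Finset.univ j,
      if_pos (Finset.mem_univ j)] at hj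
    have h5 : (ei j : ZMod p) = 0 := by
      have h6 : ((ei j : ℤ) : ZMod p) = 0 := by
        rw [← hj]; push_cast; simp
      simpa using h6
    rw [hei'] at h5
    rcases mul_eq_zero.1 h5 with h | h
    · exact h
    · exact absurd (inv_eq_zero.1 h) (hχ0 _)

end Pool.Agent.H73.DG
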