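import Pool.Agent.H73.DG.Nice
import Pool.Agent.H73.DG.ValHom
import Pool.Agent.H73.DG.Kummer

/-! # The absolute Galois group of `ℚ` has the embedding property

PLAN. `CompactSpace` for the Krull topology: instance or `InfiniteGalois`
(`Mathlib/FieldTheory/Galois/Profinite.lean`). `emb`: for `N` open let
`K = IntermediateField.fixedField N`, finite over `ℚ`
(`InfiniteGalois.isOpen_iff_finite`/`finiteDimensional`), or directly: an open subgroup contains
`E.fixingSubgroup` for a finite extension `E` of `ℚ` (definition of the Krull topology: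
`krullTopology_mem_nhds_one_iff`, `IntermediateField.exists_..`). Let `ζ` be a primitive `p`-th
root of unity in `AlgebraicClosure ℚ` (`HasEnoughRootsOfUnity`/`IsAlgClosed`/
`exists_primitiveRoot`), `L` the normal closure (`IntermediateField.normalClosure` or
`normalClosure ℚ _ Ω`) of `E ⊔ ℚ⟮ζ⟯` in `AlgebraicClosure ℚ`: finite, Galois over `ℚ`
(characteristic zero), `L.fixingSubgroup ≤ E.fixingSubgroup ≤ N`, open
(`IntermediateField.fixingSubgroup_isOpen`), normal (`L / ℚ` normal:
`IntermediateField.fixingSubgroup_normal` or by hand). Then `exists_val L` and `kummer_core`. -/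

namespace Pool.Agent.H73.DG

private theorem alg_cl (inst : Algebra ℚ (AlgebraicClosure ℚ)) :
    IsAlgClosure ℚ (AlgebraicClosure ℚ) := by
  have h : inst = AlgebraicClosure.instAlgebra ℚ := Subsingleton.elim _ _
  subst h
  infer_instance

open IntermediateField in
theorem nice_rat : Nice (AlgebraicClosure ℚ ≃ₐ[ℚ] AlgebraicClosure ℚ) := by
  classical
  have : IsAlgClosure ℚ (AlgebraicClosure ℚ) := alg_cl inferInstance
  have : Normal ℚ (AlgebraicClosure ℚ) := IsAlgClosure.normal ℚ _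
  have : IsGalois ℚ (AlgebraicClosure ℚ) := {}
  refine ⟨inferInstance, ?_⟩
  intro p hp N hN _
  have : Fact p.Prime := ⟨hp⟩
  have : NeZero (p : AlgebraicClosure ℚ) := ⟨by exact_mod_cast hp.ne_zero⟩
  obtain ⟨E, hE, hEN⟩ := (krullTopology_mem_nhds_one_iff ℚ (AlgebraicClosure ℚ) (N : Set _)).1
    (hN.mem_nhds N.one_mem)
  obtain ⟨ζ, hζ⟩ := HasEnoughRootsOfUnity.exists_primitiveRoot (AlgebraicClosure ℚ) p
  have : FiniteDimensional ℚ ℚ⟮ζ⟯ := adjoin.finiteDimensional (Algebra.IsIntegral.isIntegral ζ)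
  have := hE
  have : FiniteDimensional ℚ (E ⊔ ℚ⟮ζ⟯ : IntermediateField ℚ (AlgebraicClosure ℚ)) :=
    finiteDimensional_sup E _
  let L : IntermediateField ℚ (AlgebraicClosure ℚ) :=
    normalClosure ℚ (E ⊔ ℚ⟮ζ⟯ : IntermediateField ℚ (AlgebraicClosure ℚ)) (AlgebraicClosure ℚ)
  have hle : (E ⊔ ℚ⟮ζ⟯ : IntermediateField ℚ (AlgebraicClosure ℚ)) ≤ L := le_normalClosure _
  have : FiniteDimensional ℚ L := normalClosure.is_finiteDimensional ℚ _ _
  have : Normal ℚ L := normalClosure.normal ℚ _ _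
  have : IsGalois ℚ L := {}
  have : NumberField L := {}
  have hζL : ζ ∈ L := hle ((le_sup_right : ℚ⟮ζ⟯ ≤ _) (mem_adjoin_simple_self ℚ ζ))
  obtain ⟨v, b, hv, hb, hvb, hvγ⟩ := exists_val L
  obtain ⟨θ, h1, h2, h3⟩ := kummer_core L hζ hζL v b hv hb hvb hvγ
  have hLN : L.fixingSubgroup ≤ N := by
    intro x hx
    exact hEN (fixingSubgroup_antitone (le_trans le_sup_left hle) hx)
  exact ⟨L.fixingSubgroup, θ, inferInstance, fixingSubgroup_isOpen L, hLN, h1, h2, h3⟩

end Pool.Agent.H73.DG
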