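import Pool.Agent.H73.DG.Basic

/-! # The affine relation -/

namespace Pool.Agent.H73.DG

open MulAction

/-- a linear action of `G` on `M` over `F_p` with a 1-cocycle in the dual of `M` -/
structure CData (p : ℕ) (G M : Type) [Group G] [AddCommGroup M] [Module (ZMod p) M] where
  ρ : Representation (ZMod p) G M
  z : G → Module.Dual (ZMod p) M
  coc : ∀ g h m, z (g * h) m = z g m + z h (ρ g⁻¹ m)

variable {p : ℕ} {G M : Type} [Group G] [AddCommGroup M] [Module (ZMod p) M]

/-- `M` as a `G`-set -/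
@[ext] structure MSet (D : CData p G M) where
  m : M
/-- the dual of `M` as an affine `G`-set -/
@[ext] structure TSet (D : CData p G M) where
  t : Module.Dual (ZMod p) M
/-- pairs of an element of `M` and a value -/
@[ext] structure WSet (D : CData p G M) where
  m : M
  c : ZMod p

theorem CData.z_one (D : CData p G M) (m : M) : D.z 1 m = 0 := by
  have h := D.coc 1 1 m
  simp only [mul_one, inv_one, map_one, Module.End.one_apply] at h
  exact left_eq_add.1 h

theorem CData.ρ_inv (D : CData p G M) (g : G) (m : M) : D.ρ g⁻¹ (D.ρ g m) = m := by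
  rw [← Module.End.mul_apply, ← map_mul]
  simp

theorem CData.ρ_inv' (D : CData p G M) (g : G) (m : M) : D.ρ g (D.ρ g⁻¹ m) = m := by
  rw [← Module.End.mul_apply, ← map_mul]
  simp

instance (D : CData p G M) : MulAction G (MSet D) where
  smul g x := ⟨D.ρ g x.m⟩
  one_smul x := by
    change (⟨D.ρ 1 x.m⟩ : MSet D) = x
    rw [map_one]; rfl
  mul_smul g h x := by
    change (⟨D.ρ (g * h) x.m⟩ : MSet D) = ⟨D.ρ g (D.ρ h x.m)⟩
    rw [map_mul]; rfl

instance (D : CData p G M) : MulAction G (TSet D) where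
  smul g x := ⟨(x.t.comp (D.ρ g⁻¹)) + D.z g⟩
  one_smul x := by
    change (⟨(x.t.comp (D.ρ 1⁻¹)) + D.z 1⟩ : TSet D) = x
    ext m
    simp [D.z_one]
  mul_smul g h x := by
    change (⟨(x.t.comp (D.ρ (g * h)⁻¹)) + D.z (g * h)⟩ : TSet D) =
      ⟨((x.t.comp (D.ρ h⁻¹)) + D.z h).comp (D.ρ g⁻¹) + D.z g⟩
    ext m
    simp only [mul_inv_rev, LinearMap.add_apply, LinearMap.comp_apply, D.coc, map_mul,
      Module.End.mul_apply]
    ring

instance (D : CData p G M) : MulAction G (WSet D) where
  smul g x := ⟨D.ρ g x.m, x.c + D.z g (D.ρ g x.m)⟩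
  one_smul x := by
    change (⟨D.ρ 1 x.m, x.c + D.z 1 (D.ρ 1 x.m)⟩ : WSet D) = x
    rw [map_one, D.z_one]
    simp
  mul_smul g h x := by
    change (⟨D.ρ (g * h) x.m, x.c + D.z (g * h) (D.ρ (g * h) x.m)⟩ : WSet D) =
      ⟨D.ρ g (D.ρ h x.m), x.c + D.z h (D.ρ h x.m) + D.z g (D.ρ g (D.ρ h x.m))⟩
    rw [D.coc, map_mul]
    simp only [Module.End.mul_apply, D.ρ_inv]
    congr 1
    ring

theorem MSet.smul_def (D : CData p G M) (g : G) (x : MSet D) :
    g • x = ⟨D.ρ g x.m⟩ := rfl

theorem TSet.smul_def (D : CData p G M) (g : G) (x : TSet D) :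
    g • x = ⟨(x.t.comp (D.ρ g⁻¹)) + D.z g⟩ := rfl

theorem WSet.smul_def (D : CData p G M) (g : G) (x : WSet D) :
    g • x = ⟨D.ρ g x.m, x.c + D.z g (D.ρ g x.m)⟩ := rfl

/-- the underlying set of `MSet` -/
def MSet.equiv (D : CData p G M) : MSet D ≃ M := ⟨MSet.m, fun m => ⟨m⟩, fun _ => rfl, fun _ => rfl⟩
/-- the underlying set of `TSet` -/
def TSet.equiv (D : CData p G M) : TSet D ≃ Module.Dual (ZMod p) M :=
  ⟨TSet.t, fun m => ⟨m⟩, fun _ => rfl, fun _ => rfl⟩
/-- the underlying set of `WSet` -/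
def WSet.equiv (D : CData p G M) : WSet D ≃ M × ZMod p :=
  ⟨fun x => (x.m, x.c), fun x => ⟨x.1, x.2⟩, fun _ => rfl, fun _ => rfl⟩

instance (D : CData p G M) [Finite M] : Finite (MSet D) := Finite.of_equiv _ (MSet.equiv D).symm
instance (D : CData p G M) [NeZero p] [Finite M] : Finite (TSet D) :=
  Finite.of_injective (β := M → ZMod p) (fun x => fun m => x.t m)
    fun _ _ h => TSet.ext (LinearMap.ext fun m => congrFun h m)
instance (D : CData p G M) [NeZero p] [Finite M] : Finite (WSet D) :=
  Finite.of_equiv _ (WSet.equiv D).symm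

theorem MSet.card (D : CData p G M) : Nat.card (MSet D) = Nat.card M :=
  Nat.card_congr (MSet.equiv D)

theorem TSet.card [Fact p.Prime] [Finite M] (D : CData p G M) :
    Nat.card (TSet D) = Nat.card M := by
  have : FiniteDimensional (ZMod p) M := Module.Finite.of_finite
  rw [Nat.card_congr (TSet.equiv D)]
  have h1 := Module.natCard_eq_pow_finrank (K := ZMod p) (V := Module.Dual (ZMod p) M)
  have h2 := Module.natCard_eq_pow_finrank (K := ZMod p) (V := M)
  rw [Subspace.dual_finrank_eq] at h1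
  rw [h1, h2]

theorem WSet.card (D : CData p G M) : Nat.card (WSet D) = Nat.card M * p := by
  rw [Nat.card_congr (WSet.equiv D), Nat.card_prod, Nat.card_zmod]

theorem relation [Fact p.Prime] [Finite M] (D : CData p G M) :
    pch G (WSet D) = ((p : ℤ) - 1) • pch G (TSet D) + pch G (MSet D) := by
  classical
  have : NeZero p := ⟨(Fact.out : p.Prime).ne_zero⟩
  have : FiniteDimensional (ZMod p) M := Module.Finite.of_finite
  funext g
  simp only [Pi.add_apply, Pi.smul_apply, smul_eq_mul]
  set A : M →ₗ[ZMod p] M := D.ρ g⁻¹ with hA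
  set f : M →ₗ[ZMod p] M := LinearMap.id - A with hf
  set U : Submodule (ZMod p) M := LinearMap.ker f with hU
  have hfix : ∀ m : M, D.ρ g m = m ↔ m ∈ U := by
    intro m
    rw [hU, LinearMap.mem_ker, hf, LinearMap.sub_apply, LinearMap.id_apply, sub_eq_zero]
    constructor
    · intro h
      have h1 := D.ρ_inv g m
      rw [h] at h1
      exact h1.symm
    · intro h
      have h1 := D.ρ_inv' g m
      rw [hA] at h
      rw [← h] at h1
      exact h1
  -- the three cardinalities
  have cM : pch G (MSet D) g = (Nat.card U : ℤ) := by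
    unfold pch
    congr 1
    refine Nat.card_congr ⟨fun x => ⟨x.1.m, ?_⟩, fun x => ⟨⟨x.1⟩, ?_⟩, fun _ => rfl, fun _ => rfl⟩
    · have h := x.2
      rw [mem_fixedBy, MSet.smul_def] at h
      exact (hfix _).1 (congrArg MSet.m h)
    · rw [mem_fixedBy, MSet.smul_def]
      exact MSet.ext ((hfix _).2 x.2)
  have cW : pch G (WSet D) g = (Nat.card {m : M // m ∈ U ∧ D.z g m = 0} : ℤ) * p := by
    unfold pch
    have h1 : (p : ℤ) = Nat.card (ZMod p) := by rw [Nat.card_zmod]
    rw [h1, ← Nat.cast_mul, ← Nat.card_prod]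
    congr 1
    refine Nat.card_congr ⟨fun x => (⟨x.1.m, ?_⟩, x.1.c), fun y => ⟨⟨y.1.1, y.2⟩, ?_⟩,
      fun x => rfl, fun y => rfl⟩
    · have h2 := x.2
      rw [mem_fixedBy, WSet.smul_def] at h2
      have h4 : D.ρ g x.1.m = x.1.m := congrArg WSet.m h2
      have h5 : x.1.c + D.z g (D.ρ g x.1.m) = x.1.c := congrArg WSet.c h2
      rw [h4] at h5
      exact ⟨(hfix _).1 h4, by simpa using h5⟩
    · rw [mem_fixedBy, WSet.smul_def]
      have h4 : D.ρ g y.1.1 = y.1.1 := (hfix _).2 y.1.2.1
      refine WSet.ext h4 ?_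
      change y.2 + D.z g (D.ρ g y.1.1) = y.2
      rw [h4, y.1.2.2, add_zero]
  have hTiff : ∀ x : TSet D, x ∈ fixedBy (TSet D) g ↔ f.dualMap x.t = D.z g := by
    intro x
    rw [mem_fixedBy, TSet.smul_def, ← hA, TSet.ext_iff]
    change x.t ∘ₗ A + D.z g = x.t ↔ _
    constructor
    · intro h
      ext m
      have h1 := LinearMap.congr_fun h m
      rw [LinearMap.add_apply, LinearMap.comp_apply] at h1
      rw [LinearMap.dualMap_apply, hf, LinearMap.sub_apply, LinearMap.id_apply, map_sub, ← h1]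
      ring
    · intro h
      ext m
      have h1 := LinearMap.congr_fun h m
      rw [LinearMap.dualMap_apply, hf, LinearMap.sub_apply, LinearMap.id_apply, map_sub] at h1
      rw [LinearMap.add_apply, LinearMap.comp_apply, ← h1]
      ring
  have cardV : ∀ V : Submodule (ZMod p) M, Nat.card V = p ^ Module.finrank (ZMod p) V := by
    intro V
    have := Module.natCard_eq_pow_finrank (K := ZMod p) (V := V)
    rwa [Nat.card_zmod] at this
  rw [cM, cW]
  by_cases hz : ∀ m ∈ U, D.z g m = 0
  · -- the functional vanishes on `U`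
    have c1 : Nat.card {m : M // m ∈ U ∧ D.z g m = 0} = Nat.card U :=
      Nat.card_congr (Equiv.subtypeEquivRight fun m => ⟨fun h => h.1, fun h => ⟨h, hz m h⟩⟩)
    have hmem : D.z g ∈ LinearMap.range f.dualMap := by
      rw [LinearMap.range_dualMap_eq_dualAnnihilator_ker, Submodule.mem_dualAnnihilator]
      exact hz
    obtain ⟨t0, ht0⟩ := hmem
    have cT : pch G (TSet D) g = (Nat.card U : ℤ) := by
      unfold pch
      congr 1
      have e : fixedBy (TSet D) g ≃ LinearMap.ker f.dualMap :=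
        ⟨fun x => ⟨x.1.t - t0, by
            rw [LinearMap.mem_ker, map_sub, ht0, (hTiff _).1 x.2, sub_self]⟩,
          fun y => ⟨⟨y.1 + t0⟩, by
            rw [hTiff]
            change f.dualMap (y.1 + t0) = _
            rw [map_add, ht0, LinearMap.mem_ker.1 y.2, zero_add]⟩,
          fun x => Subtype.ext (TSet.ext (sub_add_cancel x.1.t t0)),
          fun y => Subtype.ext (add_sub_cancel_right _ _)⟩
      rw [Nat.card_congr e]
      have h1 := Module.natCard_eq_pow_finrank (K := ZMod p) (V := LinearMap.ker f.dualMap)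
      rw [h1, cardV, Nat.card_zmod]
      congr 1
      rw [LinearMap.ker_dualMap_eq_dualAnnihilator_range]
      have h2 := Subspace.finrank_add_finrank_dualAnnihilator_eq (LinearMap.range f)
      have h3 := LinearMap.finrank_range_add_finrank_ker f
      rw [hU]
      omega
    rw [cT, c1]
    ring
  · push Not at hz
    obtain ⟨m1, hm1, hm1z⟩ := hz
    have cT : pch G (TSet D) g = 0 := by
      unfold pch
      rw [Nat.cast_eq_zero, Nat.card_eq_zero]
      left
      refine ⟨fun x => hm1z ?_⟩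
      have h1 := (hTiff x.1).1 x.2
      rw [← h1, LinearMap.dualMap_apply, LinearMap.mem_ker.1 hm1, map_zero]
    have c1 : Nat.card {m : M // m ∈ U ∧ D.z g m = 0} * p = Nat.card U := by
      let β : U →ₗ[ZMod p] ZMod p := (D.z g).comp U.subtype
      have e : {m : M // m ∈ U ∧ D.z g m = 0} ≃ LinearMap.ker β :=
        ⟨fun m => ⟨⟨m.1, m.2.1⟩, m.2.2⟩, fun m => ⟨m.1.1, m.1.2, m.2⟩, fun _ => rfl, fun _ => rfl⟩
      rw [Nat.card_congr e]
      have h1 := Module.natCard_eq_pow_finrank (K := ZMod p) (V := LinearMap.ker β)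
      rw [h1, cardV, Nat.card_zmod]
      have h2 := LinearMap.finrank_range_add_finrank_ker β
      have h3 : LinearMap.range β = ⊤ := by
        rw [LinearMap.range_eq_top]
        intro c
        refine ⟨(c * (D.z g m1)⁻¹) • ⟨m1, hm1⟩, ?_⟩
        rw [map_smul]
        change (c * (D.z g m1)⁻¹) * D.z g m1 = c
        rw [mul_assoc, inv_mul_cancel₀ hm1z, mul_one]
      rw [h3, finrank_top, Module.finrank_self] at h2
      rw [← h2, add_comm, pow_succ]
    rw [cT, ← c1]
    push_cast
    ring

section sizes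

variable [TopologicalSpace G] [IsTopologicalGroup G]

/-- openness and surjectivity of the data -/
structure CData.Good (D : CData p G M) : Prop where
  op : ∃ U : Subgroup G, IsOpen (U : Set G) ∧ ∀ u ∈ U, D.ρ u = 1 ∧ D.z u = 0
  surj : ∀ f : Module.Dual (ZMod p) M, ∃ n, D.ρ n = 1 ∧ D.z n = f

theorem CData.ρ_inv_one (D : CData p G M) {g : G} (h : D.ρ g = 1) : D.ρ g⁻¹ = 1 := by
  ext m
  have h1 := D.ρ_inv g m
  rw [h] at h1
  simpa using h1

theorem M_open {D : CData p G M} (h : D.Good) (x : MSet D) :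
    IsOpen (stabilizer G x : Set G) := by
  obtain ⟨U, hU, hUz⟩ := h.op
  refine Subgroup.isOpen_mono ?_ hU
  intro u hu
  rw [mem_stabilizer_iff, MSet.smul_def, (hUz u hu).1]
  rfl

theorem T_stab {D : CData p G M} [Fact p.Prime] [Finite M] (h : D.Good) (x : TSet D) :
    IsOpen (stabilizer G x : Set G) ∧ (stabilizer G x).index = Nat.card M := by
  have : NeZero p := ⟨(Fact.out : p.Prime).ne_zero⟩
  constructor
  · obtain ⟨U, hU, hUz⟩ := h.op
    refine Subgroup.isOpen_mono ?_ hU
    intro u hu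
    rw [mem_stabilizer_iff, TSet.smul_def, (hUz u hu).2, (hUz _ (U.inv_mem hu)).1]
    ext m
    simp
  · rw [index_stabilizer]
    have : orbit G x = Set.univ := by
      rw [Set.eq_univ_iff_forall]
      intro x'
      obtain ⟨n, hn1, hn3⟩ := h.surj (x'.t - x.t)
      refine ⟨n, ?_⟩
      change n • x = x'
      rw [TSet.smul_def, D.ρ_inv_one hn1, hn3]
      ext m
      simp
    rw [this, Set.ncard_univ, TSet.card]

theorem W_stab {D : CData p G M} [Fact p.Prime] [Finite M] (h : D.Good) (x : WSet D)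
    (hm : x.m ≠ 0) :
    IsOpen (stabilizer G x : Set G) ∧
      (stabilizer G x).index = (stabilizer G (⟨x.m⟩ : MSet D)).index * p := by
  have : NeZero p := ⟨(Fact.out : p.Prime).ne_zero⟩
  constructor
  · obtain ⟨U, hU, hUz⟩ := h.op
    refine Subgroup.isOpen_mono ?_ hU
    intro u hu
    rw [mem_stabilizer_iff, WSet.smul_def, (hUz u hu).2, (hUz u hu).1]
    ext <;> simp
  · rw [index_stabilizer, index_stabilizer]
    have : (WSet.equiv D) '' (orbit G x) =
        (MSet.equiv D '' (orbit G (⟨x.m⟩ : MSet D))) ×ˢ (Set.univ : Set (ZMod p)) := by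
      ext ⟨m', c'⟩
      simp only [Set.mem_prod, Set.mem_univ, and_true]
      constructor
      · rintro ⟨_, ⟨g, rfl⟩, hg⟩
        refine ⟨_, ⟨g, rfl⟩, ?_⟩
        exact (Prod.ext_iff.1 hg).1
      · rintro ⟨_, ⟨g, rfl⟩, hg⟩
        have hg' : D.ρ g x.m = m' := hg
        have hm' : m' ≠ 0 := by
          rintro rfl
          apply hm
          rw [← D.ρ_inv g x.m, hg', map_zero]
        have hex : ∃ f : Module.Dual (ZMod p) M, f m' = c' - (x.c + D.z g m') := by
          have h1 : ¬ ∀ φ : Module.Dual (ZMod p) M, φ m' = 0 := by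
            rw [Module.forall_dual_apply_eq_zero_iff]
            exact hm'
          push Not at h1
          obtain ⟨φ, hφ⟩ := h1
          refine ⟨((c' - (x.c + D.z g m')) * (φ m')⁻¹) • φ, ?_⟩
          rw [LinearMap.smul_apply, smul_eq_mul, mul_assoc, inv_mul_cancel₀ hφ, mul_one]
        obtain ⟨f, hf⟩ := hex
        obtain ⟨n, hn1, hn3⟩ := h.surj f
        refine ⟨(n * g) • x, ⟨_, rfl⟩, ?_⟩
        rw [mul_smul, WSet.smul_def, WSet.smul_def]
        change ((D.ρ n (D.ρ g x.m), x.c + D.z g (D.ρ g x.m) + D.z n (D.ρ n (D.ρ g x.m))) :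
          M × ZMod p) = (m', c')
        rw [hg', hn1, hn3]
        simp only [Module.End.one_apply]
        refine Prod.ext rfl ?_
        change x.c + D.z g m' + f m' = c'
        rw [hf]
        ring
    have h2 := congrArg Set.ncard this
    rw [Set.ncard_image_of_injective _ (WSet.equiv D).injective, Set.ncard_prod,
      Set.ncard_image_of_injective _ (MSet.equiv D).injective, Set.ncard_univ, Nat.card_zmod] at h2
    exact h2

end sizes

end Pool.Agent.H73.DG
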